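import Pool.Agent.Lib.Art.MuT
import Pool.Agent.Lib.Art.MuTB
import Pool.Agent.Lib.Art.ChainDim

/-!
# Module Scal: the scalar and the far pairs, with additional operators `A j` which commute with the
`T x`, `x ≥ 2`
-/

namespace Pool.Agent.PCF

open Pool.Agent.Art

variable {K V J : Type*} [Field K] [AddCommGroup V] [Module K V] {T : ℤ → Module.End K V}
  {A : J → Module.End K V}

private theorem sc_comm {S : Set (Module.End K V)} {C : Module.End K V}
    (h : ∀ g ∈ S, C * g = g * C) : ∀ p ∈ Submonoid.closure S, C * p = p * C := by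
  intro p hp
  induction hp using Submonoid.closure_induction with
  | mem x hx => exact h x hx
  | one => rw [mul_one, one_mul]
  | mul x y _ _ hx hy => rw [← mul_assoc, hx, mul_assoc, hy, mul_assoc]

private theorem sc_NX {X : Set ℤ} {B : Module.End K V}
    (h : ∀ u ∈ X, ∀ v ∈ X, B * (T u - T v) = 0) : ∀ z ∈ NX X T ⊤, B z = 0 := by
  have hle : NX X T (⊤ : Submodule K V) ≤ LinearMap.ker B := by
    refine NX_le_iff.2 fun u hu v hv w _ => ?_
    rw [LinearMap.mem_ker]
    exact LinearMap.congr_fun (h u hu v hv) w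
  exact fun z hz => LinearMap.mem_ker.1 (hle hz)

/-- the scalar -/
theorem sc_scalar [IsAlgClosed K] [FiniteDimensional K V] {m : ℤ} (hm : 11 ≤ m)
    (hinj : ∀ x ∈ Set.Icc 1 m, Function.Injective (T x)) (hS : ASys hum (Set.Icc 1 m) T)
    (hA : ∀ j x, 2 ≤ x → x ≤ m → A j * T x = T x * A j)
    (hirr : ∀ W : Submodule K V, (∀ x ∈ Set.Icc 1 m, ∀ w ∈ W, T x w ∈ W) →
      (∀ j, ∀ w ∈ W, A j w ∈ W) → W = ⊥ ∨ W = ⊤)
    (hnf : T 4 ≠ T 5) (hQ : QQ T m) :
    ∃ μ : K, μ ≠ 0 ∧
      (∀ u v, 4 ≤ u → u ≤ m → 4 ≤ v → v ≤ m → ∀ w, T 2 (T u w - T v w) = μ • (T u w - T v w)) ∧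
      (∀ u v, 1 ≤ u → u ≤ m - 2 → 1 ≤ v → v ≤ m - 2 →
        ∀ w, T m (T u w - T v w) = μ • (T u w - T v w)) := by
  have mem : ∀ x : ℤ, 1 ≤ x → x ≤ m → x ∈ Set.Icc 1 m := fun x h1 h2 => ⟨h1, h2⟩
  have hsurj : ∀ x ∈ Set.Icc 1 m, Function.Surjective (T x) := fun x hx =>
    LinearMap.injective_iff_surjective.1 (hinj x hx)
  have cm : ∀ x y : ℤ, 1 ≤ x → x ≤ m → 1 ≤ y → y ≤ m → (x + 2 ≤ y ∨ y + 2 ≤ x) →
      T x * T y = T y * T x := fun x y h1 h2 h3 h4 h5 =>
    hS.comm x (mem x h1 h2) y (mem y h3 h4) (far_hum h1 h3 h5)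
  -- the words
  obtain ⟨G, hG⟩ : ∃ G : Set (Module.End K V), G = {T 1, T 2, T 3} ∪ Set.range A := ⟨_, rfl⟩
  have hGc : ∀ x, 5 ≤ x → x ≤ m → ∀ p ∈ Submonoid.closure G, T x * p = p * T x := by
    intro x h1 h2
    refine sc_comm fun g hg => ?_
    rw [hG] at hg
    rcases hg with hg | ⟨j, rfl⟩
    · rcases hg with rfl | rfl | rfl
      · exact cm x 1 (by omega) h2 (by omega) (by omega) (by omega)
      · exact cm x 2 (by omega) h2 (by omega) (by omega) (by omega)
      · exact cm x 3 (by omega) h2 (by omega) (by omega) (by omega)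
    · exact (hA j x (by omega) h2).symm
  obtain ⟨DH', hDH'⟩ : ∃ D : Set (Module.End K V), D = {D : Module.End K V | ∃ p ∈ Submonoid.closure G,
    ∃ u ∈ Set.Icc (1 : ℤ) 4, ∃ v ∈ Set.Icc (1 : ℤ) 4, D = p * (T u - T v)} := ⟨_, rfl⟩
  obtain ⟨NH', hNH'⟩ : ∃ N : Submodule K V, N = Submodule.span K {z | ∃ D ∈ DH', ∃ w, z = D w} :=
    ⟨_, rfl⟩
  have mH' : ∀ D ∈ DH', ∀ w, D w ∈ NH' := fun D hD w => by
    rw [hNH']
    exact Submodule.subset_span ⟨D, hD, w, rfl⟩
  have lH' : ∀ W : Submodule K V, (∀ D ∈ DH', ∀ w, D w ∈ W) → NH' ≤ W := by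
    intro W h
    rw [hNH']
    refine Submodule.span_le.2 ?_
    rintro z ⟨D, hD, w, rfl⟩
    exact h D hD w
  -- an operator which commutes with all elements of DH'
  have cDH' : ∀ x, 6 ≤ x → x ≤ m → ∀ D ∈ DH', D * T x = T x * D := by
    intro x h1 h2 D hD
    rw [hDH'] at hD
    obtain ⟨p, hp, u, hu, v, hv, rfl⟩ := hD
    have k1 := hGc x (by omega) h2 p hp
    have k2 : (T u - T v) * T x = T x * (T u - T v) := by
      rw [sub_mul, mul_sub, cm u x hu.1 (by have := hu.2; omega) (by omega) h2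
        (by have := hu.2; omega), cm v x hv.1 (by have := hv.2; omega) (by omega) h2
        (by have := hv.2; omega)]
    rw [mul_assoc, k2, ← mul_assoc, ← k1, mul_assoc]
  obtain ⟨NS, hNS⟩ : ∃ N : Submodule K V, N = NX (Set.Icc 4 (m - 2)) T ⊤ := ⟨_, rfl⟩
  obtain ⟨NH, hNH⟩ : ∃ N : Submodule K V, N = NX (Set.Icc (m - 2) m) T ⊤ := ⟨_, rfl⟩
  obtain ⟨N0, hN0⟩ : ∃ N : Submodule K V, N = NX (Set.Icc 4 m) T ⊤ := ⟨_, rfl⟩
  have gX0 : Good hum (Set.Icc 4 m) := good_Icc (by omega) (by omega)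
  have gX : Good hum (Set.Icc 4 (m - 2)) := good_Icc (by omega) (by omega)
  have gX3 : Good hum (Set.Icc 3 (m - 2)) := good_Icc (by omega) (by omega)
  have st0 : ∀ x, 4 ≤ x → x ≤ m → ∀ z ∈ N0, T x z ∈ N0 := by
    intro x h1 h2
    rw [hN0]
    exact NX_stable gX0 (hS.mono fun y hy => mem y (by have := hy.1; omega) hy.2) (W := ⊤)
      (fun _ _ _ _ => Submodule.mem_top) x ⟨h1, h2⟩
  have stS : ∀ x, 4 ≤ x → x ≤ m - 2 → ∀ z ∈ NS, T x z ∈ NS := by
    intro x h1 h2
    rw [hNS]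
    exact NX_stable gX (hS.mono fun y hy => mem y (by have := hy.1; omega)
      (by have := hy.2; omega)) (W := ⊤) (fun _ _ _ _ => Submodule.mem_top) x ⟨h1, h2⟩
  have e0 : N0 = NS ⊔ NH := by
    have hn : (Set.Icc 4 (m - 2) ∩ Set.Icc (m - 2) m).Nonempty :=
      ⟨m - 2, ⟨by omega, le_rfl⟩, le_rfl, by omega⟩
    have e : Set.Icc 4 m = Set.Icc 4 (m - 2) ∪ Set.Icc (m - 2) m := by
      ext x
      simp only [Set.mem_union, Set.mem_Icc]
      omega
    rw [hN0, hNS, hNH, e]
    exact NX_union hn ⊤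
  -- `N1` is stable
  have hone : (1 : Module.End K V) ∈ Submonoid.closure G := Submonoid.one_mem _
  have dmem : ∀ u v, 1 ≤ u → u ≤ 4 → 1 ≤ v → v ≤ 4 → ∀ w, T u w - T v w ∈ NH' := by
    intro u v h1 h2 h3 h4 w
    have := mH' (1 * (T u - T v)) (by rw [hDH']; exact ⟨1, hone, u, ⟨h1, h2⟩, v, ⟨h3, h4⟩, rfl⟩) w
    rwa [one_mul, LinearMap.sub_apply] at this
  have smem : ∀ u v, 4 ≤ u → u ≤ m - 2 → 4 ≤ v → v ≤ m - 2 → ∀ w, T u w - T v w ∈ NS := by
    intro u v h1 h2 h3 h4 w
    rw [hNS]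
    exact mem_NX (X := Set.Icc 4 (m - 2)) ⟨h1, h2⟩ ⟨h3, h4⟩ Submodule.mem_top
  have l3 : NX (Set.Icc 3 (m - 2)) T ⊤ ≤ NS ⊔ NH' := by
    refine NX_le_of_edges gX3 fun x hx y hy hxy w _ => ?_
    have hx1 := hx.1
    have hx2 := hx.2
    have hy1 := hy.1
    have hy2 := hy.2
    unfold hum at hxy
    by_cases h : 4 ≤ x ∧ 4 ≤ y
    · exact Submodule.mem_sup_left (smem x y h.1 hx2 h.2 hy2 w)
    · exact Submodule.mem_sup_right (dmem x y (by omega) (by omega) (by omega) (by omega) w)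
  have l1 : NX (Set.Icc 1 (m - 2)) T ⊤ ≤ NS ⊔ NH' := by
    refine NX_le_of_edges (good_Icc (by omega) (by omega)) fun x hx y hy hxy w _ => ?_
    have hx1 := hx.1
    have hx2 := hx.2
    have hy1 := hy.1
    have hy2 := hy.2
    unfold hum at hxy
    by_cases h : 4 ≤ x ∧ 4 ≤ y
    · exact Submodule.mem_sup_left (smem x y h.1 hx2 h.2 hy2 w)
    · exact Submodule.mem_sup_right (dmem x y (by omega) (by omega) (by omega) (by omega) w)
  have sG : ∀ g ∈ G, ∀ z ∈ NH', g z ∈ NH' := by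
    intro g hg z hz
    have hle : NH' ≤ NH'.comap g := by
      refine lH' _ fun D hD w => ?_
      rw [Submodule.mem_comap]
      have hD' := hD
      rw [hDH'] at hD'
      obtain ⟨p, hp, u, hu, v, hv, rfl⟩ := hD'
      have := mH' (g * p * (T u - T v)) (by
        rw [hDH']
        exact ⟨g * p, Submonoid.mul_mem _ (Submonoid.subset_closure hg) hp, u, hu, v, hv, rfl⟩) w
      rw [mul_assoc] at this
      exact this
    exact hle hz
  have sx : ∀ x, 6 ≤ x → x ≤ m → ∀ z ∈ NH', T x z ∈ NH' := by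
    intro x h1 h2 z hz
    have hle : NH' ≤ NH'.comap (T x) := by
      refine lH' _ fun D hD w => ?_
      rw [Submodule.mem_comap]
      have := mH' D hD (T x w)
      have k := LinearMap.congr_fun (cDH' x h1 h2 D hD) w
      rw [Module.End.mul_apply, Module.End.mul_apply] at k
      rwa [k] at this
    exact hle hz
  have aS : ∀ j, ∀ z ∈ NS, A j z ∈ NS := by
    intro j
    rw [hNS]
    exact NX_map (A j) (fun x hx => hA j x (by have := hx.1; omega) (by have := hx.2; omega))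
      fun _ _ => Submodule.mem_top
  have a0 : ∀ j, ∀ z ∈ N0, A j z ∈ N0 := by
    intro j
    rw [hN0]
    exact NX_map (A j) (fun x hx => hA j x (by have := hx.1; omega) hx.2)
      fun _ _ => Submodule.mem_top
  have tS : ∀ x, 1 ≤ x → x ≤ 2 → ∀ z ∈ NS, T x z ∈ NS := by
    intro x h1 h2
    rw [hNS]
    exact NX_map (T x) (fun y hy => cm x y h1 (by omega) (by have := hy.1; omega)
      (by have := hy.2; omega) (by have := hy.1; omega)) fun _ _ => Submodule.mem_top
  have mS : ∀ z ∈ NS, T m z ∈ NS := by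
    rw [hNS]
    exact NX_map (T m) (fun y hy => cm m y (by omega) le_rfl (by have := hy.1; omega)
      (by have := hy.2; omega) (by have := hy.2; omega)) fun _ _ => Submodule.mem_top
  have stA : ∀ j, ∀ z ∈ NS ⊔ NH', A j z ∈ NS ⊔ NH' := by
    intro j z hz
    obtain ⟨x, hx, y, hy, rfl⟩ := Submodule.mem_sup.1 hz
    rw [map_add]
    exact Submodule.add_mem _ (Submodule.mem_sup_left (aS j x hx))
      (Submodule.mem_sup_right (sG (A j) (by rw [hG]; exact Or.inr ⟨j, rfl⟩) y hy))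
  have stT : ∀ x, 1 ≤ x → x ≤ m - 2 → ∀ z ∈ NS ⊔ NH', T x z ∈ NS ⊔ NH' := by
    intro x h1 h2 z hz
    obtain ⟨p, hp, y, hy, rfl⟩ := Submodule.mem_sup.1 hz
    rw [map_add]
    refine Submodule.add_mem _ ?_ ?_
    · by_cases c1 : x ≤ 2
      · exact Submodule.mem_sup_left (tS x h1 c1 p hp)
      · by_cases c2 : x = 3
        · apply l3
          refine NX_stable gX3 (hS.mono fun y hy => mem y (by have := hy.1; omega)
            (by have := hy.2; omega)) (W := ⊤) (fun _ _ _ _ => Submodule.mem_top) x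
            ⟨by omega, h2⟩ p ?_
          rw [hNS] at hp
          exact NX_mono (Set.Icc_subset_Icc (by omega) le_rfl) le_rfl hp
        · exact Submodule.mem_sup_left (stS x (by omega) h2 p hp)
    · by_cases c1 : x ≤ 3
      · refine Submodule.mem_sup_right (sG (T x) ?_ y hy)
        rw [hG]
        left
        have : x = 1 ∨ x = 2 ∨ x = 3 := by omega
        rcases this with rfl | rfl | rfl
        · exact Or.inl rfl
        · exact Or.inr (Or.inl rfl)
        · exact Or.inr (Or.inr rfl)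
      · have e : T x y = (T x y - T 6 y) + T 6 y := by abel
        rw [e]
        exact Submodule.add_mem _
          (Submodule.mem_sup_left (smem x 6 (by omega) h2 (by omega) (by omega) y))
          (Submodule.mem_sup_right (sx 6 le_rfl (by omega) y hy))
  -- values
  have hT : ∀ z ∈ NS, T 2 z = T m z := by
    intro z hz
    rw [hNS] at hz
    have := sc_NX (B := T 2 - T m) (fun u hu v hv => by
      have e : T 2 - T m = (T 2 - T 1) + (T 1 - T m) := by abel
      rw [e, add_mul, hQ 2 1 u v (by omega) (by omega) (by have := hu.2; omega)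
        (by have := hv.2; omega) (by have := hu.1; omega) (by have := hu.1; omega)
        (by have := hv.1; omega) (by have := hv.1; omega),
        cross_eq hm hsurj hS hQ u v (by have := hu.1; omega) hu.2 (by have := hv.1; omega) hv.2,
        add_zero]) z hz
    rw [LinearMap.sub_apply] at this
    exact sub_eq_zero.1 this
  have kQ : ∀ a b u v, 1 ≤ a → a ≤ 4 → 1 ≤ b → b ≤ 4 → m - 2 ≤ u → u ≤ m → m - 2 ≤ v → v ≤ m →
      (T a - T b) * (T u - T v) = 0 := by
    intro a b u v h1 h2 h3 h4 h5 h6 h7 h8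
    exact hQ a b u v h1 h3 h6 h8 (by omega) (by omega) (by omega) (by omega)
  have kQ' : ∀ a b u v, 1 ≤ a → a ≤ 4 → 1 ≤ b → b ≤ 4 → m - 2 ≤ u → u ≤ m → m - 2 ≤ v → v ≤ m →
      (T u - T v) * (T a - T b) = 0 := by
    intro a b u v h1 h2 h3 h4 h5 h6 h7 h8
    rw [← diff_comm2 hS (mem a h1 (by omega)) (mem b h3 (by omega)) (mem u (by omega) h6)
      (mem v (by omega) h8) (far_hum h1 (by omega) (by omega)) (far_hum h1 (by omega) (by omega))
      (far_hum h3 (by omega) (by omega)) (far_hum h3 (by omega) (by omega))]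
    exact kQ a b u v h1 h2 h3 h4 h5 h6 h7 h8
  have kD' : ∀ x y, m - 2 ≤ x → x ≤ m → m - 2 ≤ y → y ≤ m → ∀ z ∈ NH', T x z = T y z := by
    intro x y h1 h2 h3 h4 z hz
    have hle : NH' ≤ LinearMap.ker (T x - T y) := by
      refine lH' _ fun D hD w => ?_
      rw [hDH'] at hD
      obtain ⟨p, hp, u, hu, v, hv, rfl⟩ := hD
      rw [LinearMap.mem_ker]
      have k : (T x - T y) * (p * (T u - T v)) = 0 := by
        rw [← mul_assoc, sub_mul, hGc x (by omega) h2 p hp, hGc y (by omega) h4 p hp, ← mul_sub,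
          mul_assoc, kQ' u v x y hu.1 hu.2 hv.1 hv.2 h1 h2 h3 h4, mul_zero]
      exact LinearMap.congr_fun k w
    have := LinearMap.mem_ker.1 (hle hz)
    rw [LinearMap.sub_apply] at this
    exact sub_eq_zero.1 this
  have hne : ∃ z ∈ N0, z ≠ 0 := by
    by_contra hcon
    have hcon' : ∀ z ∈ N0, z = 0 := fun z hz => by
      by_contra h
      exact hcon ⟨z, hz, h⟩
    apply hnf
    apply LinearMap.ext
    intro w
    refine sub_eq_zero.1 (hcon' _ ?_)
    rw [hN0]
    exact mem_NX (X := Set.Icc 4 m) (u := 4) (v := 5) ⟨le_rfl, by omega⟩ ⟨by omega, by omega⟩ Submodule.mem_top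
  obtain ⟨z0, hz0, hz0'⟩ := hne
  obtain ⟨μ, hμ0, hμ1⟩ := Pool.Agent.HypLow.exists_scalar
    {S : Module.End K V | (∃ x ∈ Set.Icc 1 m, S = T x) ∨ ∃ j, S = A j}
    (fun W h => hirr W (fun x hx w hw => h (T x) (Or.inl ⟨x, hx, rfl⟩) w hw)
      (fun j w hw => h (A j) (Or.inr ⟨j, rfl⟩) w hw))
    (T 2) (T m) N0 (NS ⊔ NH') NS NH NH'
    (fun h => hz0' ((Submodule.mem_bot K).1 (h ▸ hz0)))
    e0 rfl
    (tS 2 (by omega) le_rfl) mS
    (by
      rw [hNH]
      exact NX_map (T 2) (fun y hy => cm 2 y (by omega) (by omega) (by have := hy.1; omega) hy.2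
        (by have := hy.1; omega)) fun _ _ => Submodule.mem_top)
    (sx m (by omega) le_rfl)
    hT
    (by
      rintro S (⟨x, hx, rfl⟩ | ⟨j, rfl⟩)
      · have hx1 := hx.1
        have hx2 := hx.2
        by_cases c1 : 4 ≤ x
        · exact Or.inl ⟨cm x 2 hx1 hx2 (by omega) (by omega) (by omega), st0 x c1 hx2⟩
        right
        by_cases c2 : x = 3
        · subst c2
          refine Or.inr ⟨cm 3 m (by omega) (by omega) (by omega) le_rfl (by omega),
            stT 3 (by omega) (by omega), ?_⟩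
          intro z hz
          rw [hNH] at hz
          have := sc_NX (B := T 3 - T 2) (fun u hu v hv => kQ 3 2 u v (by omega) (by omega)
            (by omega) (by omega) hu.1 hu.2 hv.1 hv.2) z hz
          rw [LinearMap.sub_apply] at this
          exact sub_eq_zero.1 this
        · left
          have c3 : x = 1 ∨ x = 2 := by omega
          rcases c3 with rfl | rfl
          · intro z hz
            rw [hN0] at hz
            have := sc_NX (B := T 1 - T 2) (fun u hu v hv => hQ 1 2 u v (by omega) (by omega)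
              hu.2 hv.2 (by have := hu.1; omega) (by have := hu.1; omega)
              (by have := hv.1; omega) (by have := hv.1; omega)) z hz
            rw [LinearMap.sub_apply] at this
            exact sub_eq_zero.1 this
          · intro z _
            rfl
      · exact Or.inl ⟨hA j 2 le_rfl (by omega), a0 j⟩)
    (by
      rintro S (⟨x, hx, rfl⟩ | ⟨j, rfl⟩)
      · have hx1 := hx.1
        have hx2 := hx.2
        by_cases c1 : x ≤ m - 2
        · exact Or.inl ⟨cm x m hx1 hx2 (by omega) le_rfl (by omega), stT x hx1 c1⟩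
        right
        by_cases c2 : x = m
        · subst c2
          exact Or.inl fun _ _ => rfl
        · have c3 : x = m - 1 := by omega
          subst c3
          exact Or.inr ⟨cm (m - 1) 2 (by omega) (by omega) (by omega) (by omega) (by omega),
            st0 (m - 1) (by omega) (by omega),
            kD' (m - 1) m (by omega) (by omega) (by omega) le_rfl⟩
      · exact Or.inl ⟨hA j m (by omega) le_rfl, stA j⟩)
    {D : Module.End K V | ∃ u ∈ Set.Icc 4 (m - 2), ∃ v ∈ Set.Icc 4 (m - 2), D = T u - T v}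
    {D : Module.End K V | ∃ u ∈ Set.Icc (m - 2) m, ∃ v ∈ Set.Icc (m - 2) m, D = T u - T v}
    DH'
    (fun W h => by
      rw [hNS]
      exact NX_le_iff.2 fun u hu v hv w _ => h (T u - T v) ⟨u, hu, v, hv, rfl⟩ w)
    (fun W h => by
      rw [hNH]
      exact NX_le_iff.2 fun u hu v hv w _ => h (T u - T v) ⟨u, hu, v, hv, rfl⟩ w)
    lH'
    (by
      rintro D ⟨u, hu, v, hv, rfl⟩ w
      exact smem u v hu.1 hu.2 hv.1 hv.2 w)
    (by
      rintro D ⟨u, hu, v, hv, rfl⟩
      have := hu.1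
      have := hu.2
      have := hv.1
      have := hv.2
      rw [sub_mul, mul_sub, cm u 2 (by omega) (by omega) (by omega) (by omega) (by omega),
        cm v 2 (by omega) (by omega) (by omega) (by omega) (by omega)])
    (by
      rintro D ⟨u, hu, v, hv, rfl⟩
      have := hu.1
      have := hu.2
      have := hv.1
      have := hv.2
      rw [sub_mul, mul_sub, cm u m (by omega) (by omega) (by omega) le_rfl (by omega),
        cm v m (by omega) (by omega) (by omega) le_rfl (by omega)])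
    (by
      rintro D ⟨u, hu, v, hv, rfl⟩
      have := hu.1
      have := hu.2
      have := hv.1
      have := hv.2
      rw [sub_mul, mul_sub, cm u 2 (by omega) (by omega) (by omega) (by omega) (by omega),
        cm v 2 (by omega) (by omega) (by omega) (by omega) (by omega)])
    (cDH' m (by omega) le_rfl)
    (by
      rintro D ⟨u, hu, v, hv, rfl⟩ z hz
      rw [LinearMap.sub_apply, kD' u v hu.1 hu.2 hv.1 hv.2 z hz, sub_self])
    (by
      intro D hD z hz
      rw [hDH'] at hD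
      obtain ⟨p, hp, a, ha, b, hb, rfl⟩ := hD
      rw [hNH] at hz
      have := sc_NX (B := T a - T b) (fun u hu v hv => kQ a b u v ha.1 ha.2 hb.1 hb.2 hu.1 hu.2
        hv.1 hv.2) z hz
      rw [Module.End.mul_apply, this, map_zero])
  refine ⟨μ, ?_, ?_, ?_⟩
  · rintro rfl
    apply hz0'
    apply hinj 2 (mem 2 (by omega) (by omega))
    rw [hμ0 z0 hz0, zero_smul, map_zero]
  · intro u v h1 h2 h3 h4 w
    refine hμ0 _ ?_
    rw [hN0]
    exact mem_NX (X := Set.Icc 4 m) ⟨h1, h2⟩ ⟨h3, h4⟩ Submodule.mem_top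
  · intro u v h1 h2 h3 h4 w
    exact hμ1 _ (l1 (mem_NX (X := Set.Icc 1 (m - 2)) ⟨h1, h2⟩ ⟨h3, h4⟩ Submodule.mem_top))

private theorem sc_c1 {a b : Module.End K V} (h : a * b = b * a) :
    (a - 1) * b = b * (a - 1) := by
  rw [sub_mul, mul_sub, h, one_mul, mul_one]

private theorem sc_c2 {a b : Module.End K V} (h : a * b = b * a) :
    (a - 1) * (b - 1) = (b - 1) * (a - 1) := by
  rw [mul_sub, mul_one, sc_c1 h, sub_mul b 1, one_mul]

/-- the scalar and the far pairs -/
theorem sc_main [IsAlgClosed K] [FiniteDimensional K V] {m : ℤ} (hm : 11 ≤ m)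
    (hinj : ∀ x ∈ Set.Icc 1 m, Function.Injective (T x)) (hS : ASys hum (Set.Icc 1 m) T)
    (hA : ∀ j x, 2 ≤ x → x ≤ m → A j * T x = T x * A j)
    (hirr : ∀ W : Submodule K V, (∀ x ∈ Set.Icc 1 m, ∀ w ∈ W, T x w ∈ W) →
      (∀ j, ∀ w ∈ W, A j w ∈ W) → W = ⊥ ∨ W = ⊤)
    (hnf : ∃ x ∈ Set.Icc 1 m, ∃ y ∈ Set.Icc 1 m, T x ≠ T y) (hQ : QQ T m) :
    ∃ μ : K, μ ≠ 0 ∧ ∀ x ∈ Set.Icc 1 m, ∀ y ∈ Set.Icc 1 m, Far hum x y →
      (μ⁻¹ • T x - 1) * (μ⁻¹ • T y - 1) = 0 := by
  have mem : ∀ x : ℤ, 1 ≤ x → x ≤ m → x ∈ Set.Icc 1 m := fun x h1 h2 => ⟨h1, h2⟩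
  have hne : ∀ x, 1 ≤ x → x + 1 ≤ m → T x ≠ T (x + 1) := by
    intro x h1 h2
    exact edge_neT hm (Or.inr rfl) hinj hS hnf x (mem x h1 (by omega)) (x + 1)
      (mem (x + 1) (by omega) h2) (Or.inl ⟨h1, rfl⟩)
  have h45 : T 4 ≠ T 5 := by
    have := hne 4 (by omega) (by omega)
    norm_num at this
    exact this
  obtain ⟨μ, hμ, h1, h2⟩ := sc_scalar hm hinj hS hA hirr h45 hQ
  refine ⟨μ, hμ, ?_⟩
  obtain ⟨s, hs⟩ : ∃ s : ℤ → Module.End K V, s = fun x => μ⁻¹ • T x := ⟨_, rfl⟩
  have hst : ∀ x w, s x w = μ⁻¹ • T x w := fun x w => by rw [hs]; rfl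
  have hsx : ∀ x, μ⁻¹ • T x = s x := fun x => by rw [hs]
  have hSs : ASys hum (Set.Icc 1 m) s := by
    refine ⟨fun x hx y hy h => ?_, fun x hx y hy h => ?_⟩
    · simp only [hs, smul_mul_smul_comm, hS.comm x hx y hy h]
    · simp only [hs, smul_mul_smul_comm, hS.braid x hx y hy h]
  have hinjs : ∀ x ∈ Set.Icc 1 m, Function.Injective (s x) := by
    intro x hx w w' hww
    rw [hst, hst] at hww
    exact hinj x hx (smul_right_injective V (inv_ne_zero hμ) hww)
  have hsurjs : ∀ x ∈ Set.Icc 1 m, Function.Surjective (s x) := fun x hx =>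
    LinearMap.injective_iff_surjective.1 (hinjs x hx)
  have cm : ∀ x y : ℤ, 1 ≤ x → x ≤ m → 1 ≤ y → y ≤ m → (x + 2 ≤ y ∨ y + 2 ≤ x) →
      s x * s y = s y * s x := fun x y h1 h2 h3 h4 h5 =>
    hSs.comm x (mem x h1 h2) y (mem y h3 h4) (far_hum h1 h3 h5)
  have hAs : ∀ j x, 2 ≤ x → x ≤ m → s x * A j = A j * s x := by
    intro j x g1 g2
    rw [hs]
    simp only [smul_mul_assoc, mul_smul_comm, hA j x g1 g2]
  have hk : ∀ (y u v : ℤ), (∀ w : V, T y (T u w - T v w) = μ • (T u w - T v w)) →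
      (s y - 1) * (s u - s v) = 0 := by
    intro y u v h3
    refine LinearMap.ext fun w => ?_
    rw [Module.End.mul_apply, LinearMap.sub_apply, LinearMap.sub_apply, hst, hst, hst,
      ← smul_sub, map_smul, h3, Module.End.one_apply, smul_comm, inv_smul_smul₀ hμ, sub_self]
    rfl
  have k1 : ∀ u v, 4 ≤ u → u ≤ m → 4 ≤ v → v ≤ m → (s 2 - 1) * (s u - s v) = 0 :=
    fun u v a b c d => hk 2 u v (h1 u v a b c d)
  have k2 : ∀ u v, 1 ≤ u → u ≤ m - 2 → 1 ≤ v → v ≤ m - 2 → (s m - 1) * (s u - s v) = 0 :=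
    fun u v a b c d => hk m u v (h2 u v a b c d)
  have c2m : s 2 * s m = s m * s 2 := cm 2 m (by omega) (by omega) (by omega) le_rfl (by omega)
  have hu : ∀ u, 4 ≤ u → u ≤ m → (s 2 - 1) * (s m - 1) = (s 2 - 1) * (s u - 1) := by
    intro u a b
    have h := k1 u m a b (by omega) le_rfl
    have e : s m - 1 = (s u - 1) - (s u - s m) := by abel
    rw [e, mul_sub (s 2 - 1) (s u - 1), h, sub_zero]
  have hv : ∀ v, 1 ≤ v → v ≤ m - 2 → (s 2 - 1) * (s m - 1) = (s m - 1) * (s v - 1) := by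
    intro v a b
    have h := k2 v 2 a b (by omega) (by omega)
    have e : s 2 - 1 = (s v - 1) - (s v - s 2) := by abel
    rw [sc_c2 c2m, e, mul_sub (s m - 1) (s v - 1), h, sub_zero]
  obtain ⟨C, hCdef⟩ : ∃ C, C = (s 2 - 1) * (s m - 1) := ⟨_, rfl⟩
  have hC1 : ∀ x ∈ Set.Icc 1 m, C * s x = s x * C := by
    intro x hx
    have hx1 := hx.1
    have hx2 := hx.2
    rw [hCdef]
    by_cases e1 : x ≤ 3
    · -- C = (s m - 1) (s v - 1) with v far from x
      obtain ⟨v, hv1, hv2, hv3⟩ : ∃ v, 1 ≤ v ∧ v ≤ m - 2 ∧ x + 2 ≤ v :=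
        ⟨5, by omega, by omega, by omega⟩
      rw [hv v hv1 hv2, mul_assoc, sc_c1 (cm v x hv1 (by omega) hx1 hx2 (by omega)), ← mul_assoc,
        sc_c1 (cm m x (by omega) le_rfl hx1 hx2 (by omega)), mul_assoc]
    · obtain ⟨u, hu1, hu2, hu3⟩ : ∃ u, 4 ≤ u ∧ u ≤ m ∧ (u + 2 ≤ x ∨ x + 2 ≤ u) := by
        by_cases c : x ≤ 6
        · exact ⟨8, by omega, by omega, by omega⟩
        · exact ⟨4, by omega, by omega, by omega⟩
      rw [hu u hu1 hu2, mul_assoc, sc_c1 (cm u x (by omega) hu2 hx1 hx2 hu3), ← mul_assoc,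
        sc_c1 (cm 2 x (by omega) (by omega) hx1 hx2 (by omega)), mul_assoc]
  have hC2 : ∀ j, C * A j = A j * C := by
    intro j
    rw [hCdef, mul_assoc, sc_c1 (hAs j m (by omega) le_rfl), ← mul_assoc,
      sc_c1 (hAs j 2 le_rfl (by omega)), mul_assoc]
  have hnt : Nontrivial V := by
    by_contra hcon
    rw [not_nontrivial_iff_subsingleton] at hcon
    exact h45 (LinearMap.ext fun w => Subsingleton.elim _ _)
  obtain ⟨c, hc⟩ := Module.End.exists_eigenvalue C
  have hcs : ∀ w, C w = c • w := by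
    have h := hirr (Module.End.eigenspace C c)
      (fun x hx w hw => by
        rw [Module.End.mem_eigenspace_iff] at hw ⊢
        have g1 := LinearMap.congr_fun (hC1 x hx) w
        rw [Module.End.mul_apply, Module.End.mul_apply, hw, map_smul, hst, map_smul] at g1
        rw [smul_comm c] at g1
        exact smul_right_injective V (inv_ne_zero hμ) g1)
      (fun j w hw => by
        rw [Module.End.mem_eigenspace_iff] at hw ⊢
        have g1 := LinearMap.congr_fun (hC2 j) w
        rw [Module.End.mul_apply, Module.End.mul_apply] at g1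
        rw [g1, hw, map_smul])
    rcases h with h | h
    · exact absurd h hc
    · intro w
      have hw : w ∈ Module.End.eigenspace C c := by
        rw [h]
        exact Submodule.mem_top
      exact Module.End.mem_eigenspace_iff.1 hw
  have hC0 : (s 2 - 1) * (s m - 1) = 0 := by
    rw [← hCdef]
    by_cases hc0 : c = 0
    · refine LinearMap.ext fun w => ?_
      rw [hcs w, hc0, zero_smul]
      rfl
    · exfalso
      have inj : ∀ w, (s 2 - 1) w = 0 → w = 0 := by
        intro w hw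
        have h3 := hcs w
        rw [hCdef, sc_c2 c2m, Module.End.mul_apply, hw, map_zero] at h3
        exact (smul_eq_zero.1 h3.symm).resolve_left hc0
      apply h45
      refine LinearMap.ext fun w => ?_
      have h3 := LinearMap.congr_fun (k1 4 5 (by omega) (by omega) (by omega) (by omega)) w
      have h4 := inj ((s 4 - s 5) w) h3
      rw [LinearMap.sub_apply, sub_eq_zero, hst, hst] at h4
      exact smul_right_injective V (inv_ne_zero hμ) h4
  -- move the token from `2` to `1`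
  have hC11 : (s 1 - 1) * (s m - 1) = 0 := by
    have hb := hSs.braid 2 (mem 2 (by omega) (by omega)) 1 (mem 1 le_rfl (by omega))
      (by unfold hum; omega)
    have d2 : (s m - 1) * s 2 = s 2 * (s m - 1) := sc_c1 c2m.symm
    have d1 : (s m - 1) * s 1 = s 1 * (s m - 1) :=
      sc_c1 (cm m 1 (by omega) le_rfl le_rfl (by omega) (by omega))
    have g1 : s 1 * (s 2 * s 1) = s 2 * s 1 * s 2 := by rw [hb, mul_assoc]
    have dg : (s m - 1) * (s 2 * s 1) = s 2 * s 1 * (s m - 1) := by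
      rw [← mul_assoc, d2, mul_assoc, d1, mul_assoc]
    have e : (s 1 - 1) * (s m - 1) * (s 2 * s 1) = 0 := by
      calc (s 1 - 1) * (s m - 1) * (s 2 * s 1) = (s 1 - 1) * (s 2 * s 1 * (s m - 1)) := by
            rw [mul_assoc, dg]
        _ = (s 1 * (s 2 * s 1) - s 2 * s 1) * (s m - 1) := by
            rw [← mul_assoc, sub_mul (s 1), one_mul]
        _ = s 2 * s 1 * ((s 2 - 1) * (s m - 1)) := by
            rw [g1, ← mul_assoc, mul_sub (s 2 * s 1), mul_one]
        _ = 0 := by rw [hC0, mul_zero]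
    refine LinearMap.ext fun y => ?_
    obtain ⟨y1, rfl⟩ := hsurjs 2 (mem 2 (by omega) (by omega)) y
    obtain ⟨y2, rfl⟩ := hsurjs 1 (mem 1 le_rfl (by omega)) y1
    exact LinearMap.congr_fun e y2
  intro x hx y hy hxy
  rw [hsx, hsx]
  exact far_pairsT hm (Or.inr rfl) hsurjs hSs hC11 x hx y hy hxy

end Pool.Agent.PCF
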