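import Pool.Agent.Lib.PCF.Defs

/-!
# Module BU2: the transform of a local system (crossed elements zero)

Given `BFacts` (module BU1). Write `e x = s x - 1`, `U = pU s`, `B j = pB s a j`, `D j = pD s si a j`.

(M) MASTER LEMMA. Let `U' <= U` be stable under `s 1`, all `B j` and all `D j`. Put
`X 1 = U'`, `X (x+1) = e (x+1) (X x)` (images), `N = sum_{1<=x<=m} X x + sum_j a j (U')`. Then `N` is
stable under `s x` (`1<=x<=m`) and all `a j`:
 * `s x (X y) <= X y` for `|x-y|>=2` (far pairs), `s y (X y) <= X y`, `e (y+1) X y = X (y+1)`,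
   `e y (X (y+1)) <= X y` (`e y e (y+1) w = - s y w` for `w in range (e y)`, from `cE s y = 0`);
 * `e 1 a j u = - B j u in U'`, `e 2 a j u = e 2 D j u in X 2` (act2'), `e x a j u = a j e x u = 0`
   for `x >= 3`;
 * `a j X 2 <= X 2` (act2), so `a j X x <= X x` for `x >= 2` (`a j` commutes with `e x`);
   `a i a j U' <= N` by own, lo, hi (`si` maps `U'` to itself: finite dimension, `s 1` injective).
So if `U' /= 0` then `N = top` (hirr), and `U = e 1 (top) = e 1 N <= U'`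
(`e 1 X 1 <= U'`, `e 1 X 2 <= U'`, `e 1 X x = 0`, `e 1 a j u = - B j u`). Hence: every `U' /= 0` in `U`
which is stable under `s 1`, all `B j`, `D j` is `U`.

(S) SCALARS. Eigenspaces in `U` of `s 1` (commutes with `B`, `D` on `U`), then of each `D j`
(commutes with `s 1`, `B`, `D`): so `s 1 u = - q u` and `D j u = d j u` on `U`, `q /= 0`, `d j /= 0`
(dinj). Then every `U' <= U` stable under all `B j` is `0` or `U`.

(U) OUTPUT. `u 1 v = v`, `u (x+1) v = - e (x+1) (u x v)` (for `x >= 1`), a linear map `U -> V` for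
each `x`; `s 1 = - q` on `U`, then by induction (as in `Art.bur_seq`, with `lam = -(1+q)`)
`s x (u x v) = u x v - (1+q) u x v`, `s (x+1) (u x v) = u x v - u (x+1) v`,
`s x (u (x+1) v) = u (x+1) v - q u x v`, and `s x (u y v) = u y v` for `|x - y| >= 2`
(`u y v in range (e y)`). `al j v = d_j^{-1} B j v - v`, a linear map `U -> U`. Then with
`w j v := d_j^{-1} a j v`:
 `s 1 (w j v) = w j v - (v + al j v)`, `s 2 (w j v) = w j v - u 2 v`, `s x (w j v) = w j v`, x >= 3;
 `a j (u x v) = d j u x v`, x >= 2; and from own, lo, hi: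
 `a i (w j v) = d i (w j v + (w i - 1) (g v))` with `g = al j` (i = j),
 `g = (1 - q) + al j` (i < j), `g = q^{-1} al j` (j < i).
Check of `lo` (`i<j`): `a i a j y = a i(-q d j y + B j y) + d i a j y - d i (- q d j y + B j y)`.
Check of `hi` (`i<j`): `a j a i y = d j a i y - q^{-1} a j (d i y - B i y) - q^{-1} (d j B i y - d j d i y)`.
(span) `N = top` for `U' = U`.
(alinj) for `u in U`: `a s1 a s1 u = -q a s1 a u = -q a (a u - B u) = -q (D D u - B D u)`
`= q d^2 al u` (own), and the left side is injective in `u` (`a = a j`, `s 1` injective).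
(uninj) `u x` is injective: `e x e (x+1) w = - s x w` on `range (e x)`.
-/

namespace Pool.Agent.PCF

open Pool.Agent.Art

variable {K V J : Type*} [Field K] [AddCommGroup V] [Module K V] [LinearOrder J]

/-- `e x e (x + 1) w = - s x w` on `range (e x)` -/
theorem bu2_psi_up {s : ℤ → Module.End K V} {x : ℤ} (hC : cE s x = 0) {w : V}
    (hw : w ∈ LinearMap.range (s x - 1)) : (s x - 1) ((s (x + 1) - 1) w) = - s x w := by
  obtain ⟨z, rfl⟩ := hw
  have h1 : (s x - 1) z + (s x - 1) ((s x - 1) z) + (s x - 1) ((s (x + 1) - 1) ((s x - 1) z)) =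
      0 := LinearMap.congr_fun hC z
  have h2 : (s x - 1) ((s x - 1) z) = s x ((s x - 1) z) - (s x - 1) z := rfl
  rw [h2] at h1
  have h3 : s x ((s x - 1) z) + (s x - 1) ((s (x + 1) - 1) ((s x - 1) z)) = 0 := by
    rw [← h1]
    abel
  exact (neg_eq_of_add_eq_zero_right h3).symm

/-- `s (x + 1) e (x + 1) w = e (x + 1) s x w` on `range (e x)` -/
theorem bu2_s_up {s : ℤ → Module.End K V} {x : ℤ}
    (hb : s x * s (x + 1) * s x = s (x + 1) * s x * s (x + 1)) (hC : cE s x = 0) {w : V}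
    (hw : w ∈ LinearMap.range (s x - 1)) :
    s (x + 1) ((s (x + 1) - 1) w) = (s (x + 1) - 1) (s x w) := by
  have h0 := bu2_psi_up hC hw
  rw [cE_eq hb] at hC
  have h1 : (s (x + 1) - 1) w + (s (x + 1) - 1) ((s (x + 1) - 1) w) +
      (s (x + 1) - 1) ((s x - 1) ((s (x + 1) - 1) w)) = 0 := LinearMap.congr_fun hC w
  rw [h0, map_neg] at h1
  have h2 : (s (x + 1) - 1) ((s (x + 1) - 1) w) =
      s (x + 1) ((s (x + 1) - 1) w) - (s (x + 1) - 1) w := rfl
  rw [h2] at h1
  have h3 : s (x + 1) ((s (x + 1) - 1) w) - (s (x + 1) - 1) (s x w) = 0 := by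
    rw [← h1]
    abel
  exact sub_eq_zero.1 h3

/-- the pieces of the chain -/
def bu2_pX (s : ℤ → Module.End K V) (U' : Submodule K V) : ℕ → Submodule K V
  | 0 => U'
  | n + 1 => (bu2_pX s U' n).map (s ((n : ℤ) + 1 + 1) - 1)

theorem bu2_pX_le {s : ℤ → Module.End K V} {U' : Submodule K V} (hU : U' ≤ pU s) (n : ℕ) :
    bu2_pX s U' n ≤ LinearMap.range (s ((n : ℤ) + 1) - 1) := by
  cases n with
  | zero =>
    have e : ((0 : ℕ) : ℤ) + 1 = 1 := by norm_num
    rw [e]
    exact hU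
  | succ n =>
    have e : ((n + 1 : ℕ) : ℤ) + 1 = (n : ℤ) + 1 + 1 := by push_cast; ring
    rw [e]
    rintro _ ⟨w, _, rfl⟩
    exact ⟨w, rfl⟩

/-- the sum of all pieces -/
def bu2_pN (m : ℤ) (s : ℤ → Module.End K V) (a : J → Module.End K V) (U' : Submodule K V) :
    Submodule K V :=
  (⨆ n : {n : ℕ // (n : ℤ) + 1 ≤ m}, bu2_pX s U' n) ⊔ ⨆ j, U'.map (a j)

section Master

variable {m : ℤ} {s : ℤ → Module.End K V} {si : Module.End K V}
    {a : J → Module.End K V} {U' : Submodule K V}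

omit [LinearOrder J] in
theorem bu2_mem_pX {n : ℕ} (hn : (n : ℤ) + 1 ≤ m) {w : V} (hw : w ∈ bu2_pX s U' n) : w ∈ bu2_pN m s a U' :=
  Submodule.mem_sup_left (Submodule.mem_iSup_of_mem (⟨n, hn⟩ : {n : ℕ // (n : ℤ) + 1 ≤ m}) hw)

omit [LinearOrder J] in
theorem bu2_mem_pa (j : J) {w : V} (hw : w ∈ U') : a j w ∈ bu2_pN m s a U' :=
  Submodule.mem_sup_right (Submodule.mem_iSup_of_mem j ⟨w, hw, rfl⟩)

omit [LinearOrder J] in
theorem bu2_pN_le {T : Submodule K V} (h1 : ∀ n : ℕ, (n : ℤ) + 1 ≤ m → ∀ w ∈ bu2_pX s U' n, w ∈ T)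
    (h2 : ∀ j, ∀ w ∈ U', a j w ∈ T) : bu2_pN m s a U' ≤ T := by
  refine sup_le (iSup_le fun n w hw => h1 n.1 n.2 w hw) (iSup_le fun j => ?_)
  rintro _ ⟨w, hw, rfl⟩
  exact h2 j w hw

theorem bu2_far_fix (hF : FarZ m s) {x y : ℤ} (hx : 1 ≤ x) (hxm : x ≤ m) (hy : 1 ≤ y) (hym : y ≤ m)
    (h : x + 2 ≤ y ∨ y + 2 ≤ x) {w : V} (hw : w ∈ LinearMap.range (s y - 1)) :
    (s x - 1) w = 0 := by
  obtain ⟨z, rfl⟩ := hw
  exact LinearMap.congr_fun (hF x ⟨hx, hxm⟩ y ⟨hy, hym⟩ (far_chain hx hy h)) z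

/-- `s (n + 1)` on the piece `n` -/
theorem bu2_pX_own (hP : PSys m s si a) (hC : ∀ x, 1 ≤ x → x + 1 ≤ m → cE s x = 0)
    (hU : U' ≤ pU s) (h1 : ∀ w ∈ U', s 1 w ∈ U') (n : ℕ) (hn : (n : ℤ) + 1 ≤ m) :
    ∀ w ∈ bu2_pX s U' n, s ((n : ℤ) + 1) w ∈ bu2_pX s U' n := by
  induction n with
  | zero =>
    have e : ((0 : ℕ) : ℤ) + 1 = 1 := by norm_num
    rw [e]
    exact h1
  | succ n ih =>
    have e : ((n + 1 : ℕ) : ℤ) + 1 = (n : ℤ) + 1 + 1 := by push_cast; ring
    rw [e] at hn ⊢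
    rintro _ ⟨w, hw, rfl⟩
    rw [bu2_s_up (hP.chain.braid ((n : ℤ) + 1) ⟨by omega, by omega⟩ ((n : ℤ) + 1 + 1)
      ⟨by omega, by omega⟩ (hum_chain (by omega))) (hC _ (by omega) hn) (bu2_pX_le hU n hw)]
    exact ⟨_, ih (by omega) w hw, rfl⟩

/-- `a j` on the piece `n`, `n ≥ 1` -/
theorem bu2_pX_a (hP : PSys m s si a) (hB : BFacts s si a)
    (hU : U' ≤ pU s) (h3 : ∀ j, ∀ w ∈ U', pD s si a j w ∈ U') (j : J) (n : ℕ)
    (hn : (n : ℤ) + 2 ≤ m) :
    ∀ w ∈ bu2_pX s U' (n + 1), a j w ∈ bu2_pX s U' (n + 1) := by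
  induction n with
  | zero =>
    rintro _ ⟨w, hw, rfl⟩
    have e : ((0 : ℕ) : ℤ) + 1 + 1 = 2 := by norm_num
    refine ⟨pD s si a j w, h3 j w hw, ?_⟩
    rw [e]
    exact (hB.act2 j w (hU hw)).symm
  | succ n ih =>
    rintro _ ⟨w, hw, rfl⟩
    have e : ((n + 1 : ℕ) : ℤ) + 1 + 1 = (n : ℤ) + 3 := by push_cast; ring
    refine ⟨a j w, ih (by push_cast at hn; omega) w hw, ?_⟩
    rw [e]
    have h := LinearMap.congr_fun (hP.far j ((n : ℤ) + 3) (by omega) (by push_cast at hn; omega)) w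
    have h' : a j (s ((n : ℤ) + 3) w) = s ((n : ℤ) + 3) (a j w) := h
    show s ((n : ℤ) + 3) (a j w) - a j w = a j (s ((n : ℤ) + 3) w - w)
    rw [map_sub, h']

/-- (M), stability -/
theorem bu2_pN_stable [FiniteDimensional K V] (hm : 11 ≤ m) (hP : PSys m s si a) (hF : FarZ m s)
    (hC : ∀ x, 1 ≤ x → x + 1 ≤ m → cE s x = 0) (hB : BFacts s si a)
    (hU : U' ≤ pU s) (h1 : ∀ w ∈ U', s 1 w ∈ U') (h2 : ∀ j, ∀ w ∈ U', pB s a j w ∈ U')
    (h3 : ∀ j, ∀ w ∈ U', pD s si a j w ∈ U') :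
    (∀ x ∈ Set.Icc 1 m, ∀ w ∈ bu2_pN m s a U', s x w ∈ bu2_pN m s a U') ∧
    (∀ j, ∀ w ∈ bu2_pN m s a U', a j w ∈ bu2_pN m s a U') := by
  have hU0 : ∀ w ∈ U', w ∈ bu2_pN m s a U' := fun w hw => bu2_mem_pX (n := 0) (by push_cast; omega) hw
  have hsi : ∀ w ∈ U', si w ∈ U' := by
    have hinj : Function.Injective ((s 1).restrict h1) := by
      intro v w hvw
      apply Subtype.ext
      apply hP.inj 1 ⟨le_rfl, by omega⟩
      exact congrArg Subtype.val hvw
    have hsurj := LinearMap.injective_iff_surjective.1 hinj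
    intro w hw
    obtain ⟨v, hv⟩ := hsurj ⟨w, hw⟩
    have h4 : s 1 (v : V) = w := congrArg Subtype.val hv
    have h5 : si (s 1 (v : V)) = v := LinearMap.congr_fun hP.inv2 (v : V)
    rw [← h4, h5]
    exact v.2
  refine ⟨?_, ?_⟩
  · intro x hx w hw
    obtain ⟨hx1, hx2⟩ := hx
    refine (bu2_pN_le (T := (bu2_pN m s a U').comap (s x)) ?_ ?_) hw
    · intro n hn w hw
      show s x w ∈ bu2_pN m s a U'
      have hr := bu2_pX_le hU n hw
      by_cases c1 : x = (n : ℤ) + 1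
      · rw [c1]
        exact bu2_mem_pX hn (bu2_pX_own hP hC hU h1 n hn w hw)
      · by_cases c2 : x = (n : ℤ) + 1 + 1
        · have h : s x w = w + (s x - 1) w := by
            show s x w = w + (s x w - w)
            abel
          rw [h]
          refine Submodule.add_mem _ (bu2_mem_pX hn hw) (bu2_mem_pX (n := n + 1) (by push_cast; omega) ?_)
          rw [c2]
          exact ⟨w, hw, rfl⟩
        · by_cases c3 : x + 1 = (n : ℤ) + 1
          · obtain ⟨k, rfl⟩ : ∃ k, n = k + 1 := ⟨n - 1, by omega⟩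
            obtain ⟨v, hv, rfl⟩ := hw
            have e : x = (k : ℤ) + 1 := by push_cast at c3; omega
            have h : s x ((s ((k : ℤ) + 1 + 1) - 1) v) =
                (s ((k : ℤ) + 1 + 1) - 1) v + (s x - 1) ((s ((k : ℤ) + 1 + 1) - 1) v) := by
              show s x ((s ((k : ℤ) + 1 + 1) - 1) v) = (s ((k : ℤ) + 1 + 1) - 1) v +
                (s x ((s ((k : ℤ) + 1 + 1) - 1) v) - (s ((k : ℤ) + 1 + 1) - 1) v)
              abel
            rw [h, e, bu2_psi_up (hC _ (by omega) (by push_cast at hn; omega)) (bu2_pX_le hU k hv)]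
            push_cast at hn
            exact Submodule.add_mem _ (bu2_mem_pX (n := k + 1) (by push_cast; omega) ⟨v, hv, rfl⟩)
              (Submodule.neg_mem _ (bu2_mem_pX (n := k) (by omega)
                (bu2_pX_own hP hC hU h1 k (by omega) v hv)))
          · have h := bu2_far_fix hF hx1 hx2 (by omega) hn (by omega) hr
            have h' : s x w - w = 0 := h
            rw [sub_eq_zero.1 h']
            exact bu2_mem_pX hn hw
    · intro j w hw
      show s x (a j w) ∈ bu2_pN m s a U'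
      have h : s x (a j w) = a j w + (s x - 1) (a j w) := by
        show s x (a j w) = a j w + (s x (a j w) - a j w)
        abel
      rw [h]
      refine Submodule.add_mem _ (bu2_mem_pa j hw) ?_
      by_cases c1 : x = 1
      · subst c1
        have h4 : (s 1 - 1) (a j w) = - pB s a j w := by
          show (s 1 - 1) (a j w) = - -((s 1 - 1) (a j w))
          rw [neg_neg]
        rw [h4]
        exact hU0 _ (Submodule.neg_mem _ (h2 j w hw))
      · by_cases c2 : x = 2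
        · subst c2
          rw [hB.act2' j w (hU hw)]
          refine bu2_mem_pX (n := 1) (by push_cast; omega) ⟨pD s si a j w, h3 j w hw, ?_⟩
          norm_num
        · have h4 := LinearMap.congr_fun (hP.far j x (by omega) hx2) w
          have h5 : a j (s x w) = s x (a j w) := h4
          have h6 : (s x - 1) (a j w) = a j ((s x - 1) w) := by
            show s x (a j w) - a j w = a j (s x w - w)
            rw [map_sub, h5]
          rw [h6, bu2_far_fix hF hx1 hx2 (y := 1) le_rfl (by omega) (by omega) (hU hw), map_zero]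
          exact Submodule.zero_mem _
  · intro j w hw
    refine (bu2_pN_le (T := (bu2_pN m s a U').comap (a j)) ?_ ?_) hw
    · intro n hn w hw
      show a j w ∈ bu2_pN m s a U'
      cases n with
      | zero => exact bu2_mem_pa j hw
      | succ n =>
        exact bu2_mem_pX hn (bu2_pX_a hP hB hU h3 j n (by push_cast at hn; omega) w hw)
    · intro i w hw
      show a j (a i w) ∈ bu2_pN m s a U'
      rcases lt_trichotomy i j with hij | hij | hij
      · rw [hB.hi i j hij w (hU hw)]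
        exact Submodule.add_mem _ (Submodule.add_mem _ (bu2_mem_pa _ (h3 _ _ hw))
          (bu2_mem_pa _ (hsi _ (Submodule.sub_mem _ (h3 _ _ hw) (h2 _ _ hw)))))
          (hU0 _ (hsi _ (Submodule.sub_mem _ (h2 _ _ (h3 _ _ hw)) (h3 _ _ (h3 _ _ hw)))))
      · subst hij
        rw [hB.own i w (hU hw)]
        exact Submodule.sub_mem _ (Submodule.add_mem _ (bu2_mem_pa _ (h2 _ _ hw))
          (hU0 _ (h3 _ _ (h3 _ _ hw)))) (hU0 _ (h2 _ _ (h3 _ _ hw)))
      · rw [hB.lo j i hij w (hU hw)]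
        exact Submodule.sub_mem _ (Submodule.add_mem _
          (bu2_mem_pa _ (Submodule.add_mem _ (h3 _ _ (h1 _ hw)) (h2 _ _ hw)))
          (bu2_mem_pa _ (h3 _ _ hw)))
          (hU0 _ (Submodule.add_mem _ (h3 _ _ (h1 _ (h3 _ _ hw))) (h2 _ _ (h3 _ _ hw))))

/-- (M) -/
theorem bu2_pN_top [FiniteDimensional K V] (hm : 11 ≤ m) (hP : PSys m s si a) (hF : FarZ m s)
    (hC : ∀ x, 1 ≤ x → x + 1 ≤ m → cE s x = 0) (hB : BFacts s si a) (hirr : Irr m s a)
    (hU : U' ≤ pU s) (h1 : ∀ w ∈ U', s 1 w ∈ U') (h2 : ∀ j, ∀ w ∈ U', pB s a j w ∈ U')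
    (h3 : ∀ j, ∀ w ∈ U', pD s si a j w ∈ U') (h0 : U' ≠ ⊥) : bu2_pN m s a U' = ⊤ := by
  obtain ⟨k1, k2⟩ := bu2_pN_stable hm hP hF hC hB hU h1 h2 h3
  rcases hirr _ k1 k2 with h | h
  · exfalso
    apply h0
    rw [eq_bot_iff, ← h]
    intro w hw
    exact bu2_mem_pX (n := 0) (by push_cast; omega) hw
  · exact h

theorem bu2_pU_simple [FiniteDimensional K V] (hm : 11 ≤ m) (hP : PSys m s si a) (hF : FarZ m s)
    (hC : ∀ x, 1 ≤ x → x + 1 ≤ m → cE s x = 0) (hB : BFacts s si a) (hirr : Irr m s a)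
    (hU : U' ≤ pU s) (h1 : ∀ w ∈ U', s 1 w ∈ U') (h2 : ∀ j, ∀ w ∈ U', pB s a j w ∈ U')
    (h3 : ∀ j, ∀ w ∈ U', pD s si a j w ∈ U') : U' = ⊥ ∨ U' = pU s := by
  by_cases h0 : U' = ⊥
  · exact Or.inl h0
  right
  refine le_antisymm hU ?_
  have ht := bu2_pN_top hm hP hF hC hB hirr hU h1 h2 h3 h0
  rintro _ ⟨z, rfl⟩
  have hz : z ∈ bu2_pN m s a U' := by rw [ht]; exact Submodule.mem_top
  refine (bu2_pN_le (T := U'.comap (s 1 - 1)) ?_ ?_) hz
  · intro n hn w hw
    show (s 1 - 1) w ∈ U'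
    match n, hn, hw with
    | 0, hn, hw => exact Submodule.sub_mem _ (h1 w hw) hw
    | 1, hn, hw =>
      obtain ⟨v, hv, rfl⟩ := hw
      have h := bu2_psi_up (hC 1 le_rfl (by omega)) (hU hv)
      have e : ((0 : ℕ) : ℤ) + 1 + 1 = 1 + 1 := by norm_num
      rw [e, h]
      exact Submodule.neg_mem _ (h1 v hv)
    | n + 2, hn, hw =>
      have hr := bu2_pX_le hU (n + 2) hw
      rw [bu2_far_fix hF (x := 1) le_rfl (by omega) (by push_cast; omega) hn (by push_cast; omega) hr]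
      exact Submodule.zero_mem _
  · intro j w hw
    show (s 1 - 1) (a j w) ∈ U'
    have h4 : (s 1 - 1) (a j w) = - pB s a j w := by
      show (s 1 - 1) (a j w) = - -((s 1 - 1) (a j w))
      rw [neg_neg]
    rw [h4]
    exact Submodule.neg_mem _ (h2 j w hw)

/-- (S) -/
theorem bu2_pU_scal [IsAlgClosed K] [FiniteDimensional K V] (hm : 11 ≤ m) (hP : PSys m s si a)
    (hF : FarZ m s)
    (hC : ∀ x, 1 ≤ x → x + 1 ≤ m → cE s x = 0) (hB : BFacts s si a) (hirr : Irr m s a)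
    (h12 : s 1 ≠ 1) {T : Module.End K V} (hT : ∀ u ∈ pU s, T u ∈ pU s)
    (h1 : ∀ u ∈ pU s, T (s 1 u) = s 1 (T u)) (h2 : ∀ j, ∀ u ∈ pU s, T (pB s a j u) = pB s a j (T u))
    (h3 : ∀ j, ∀ u ∈ pU s, T (pD s si a j u) = pD s si a j (T u)) :
    ∃ c : K, ∀ u ∈ pU s, T u = c • u := by
  have hne : Nontrivial (pU s) := by
    rw [Submodule.nontrivial_iff_ne_bot]
    intro h
    exact h12 (sub_eq_zero.1 (LinearMap.range_eq_bot.1 h))
  obtain ⟨c, hc⟩ := Module.End.exists_eigenvalue (T.restrict hT)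
  obtain ⟨v, hv⟩ := hc.exists_hasEigenvector
  have hv1 : T (v : V) = c • (v : V) := congrArg Subtype.val hv.apply_eq_smul
  refine ⟨c, ?_⟩
  have hBm : ∀ j, ∀ u ∈ pU s, pB s a j u ∈ pU s := by
    intro j u _
    exact Submodule.neg_mem _ ⟨a j u, rfl⟩
  have hDm : ∀ j, ∀ u ∈ pU s, pD s si a j u ∈ pU s := by
    intro j u _
    exact Submodule.neg_mem _ ⟨a j ((s 2 - 1) (si u)), rfl⟩
  rcases bu2_pU_simple (U' := pU s ⊓ LinearMap.ker (T - c • (1 : Module.End K V))) hm hP hF hC hB hirr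
    inf_le_left
    (by
      rintro w ⟨hw, hw2⟩
      refine ⟨hB.smem w hw, ?_⟩
      have hw3 : T w - c • w = 0 := hw2
      show T (s 1 w) - c • s 1 w = 0
      rw [h1 w hw, sub_eq_zero.1 hw3, map_smul, sub_self])
    (by
      rintro j w ⟨hw, hw2⟩
      refine ⟨hBm j w hw, ?_⟩
      have hw3 : T w - c • w = 0 := hw2
      show T (pB s a j w) - c • pB s a j w = 0
      rw [h2 j w hw, sub_eq_zero.1 hw3, map_smul, sub_self])
    (by
      rintro j w ⟨hw, hw2⟩
      refine ⟨hDm j w hw, ?_⟩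
      have hw3 : T w - c • w = 0 := hw2
      show T (pD s si a j w) - c • pD s si a j w = 0
      rw [h3 j w hw, sub_eq_zero.1 hw3, map_smul, sub_self]) with h | h
  · exfalso
    have hvm : (v : V) ∈ pU s ⊓ LinearMap.ker (T - c • (1 : Module.End K V)) := by
      refine ⟨v.2, ?_⟩
      show T (v : V) - c • (v : V) = 0
      rw [hv1, sub_self]
    rw [h] at hvm
    exact hv.2 (Subtype.ext ((Submodule.mem_bot K).1 hvm))
  · intro u hu
    rw [← h] at hu
    have h4 : T u - c • u = 0 := hu.2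
    exact sub_eq_zero.1 h4

end Master

/-- `u (n + 1)` -/
noncomputable def bu2_pu (s : ℤ → Module.End K V) : ℕ → (pU s →ₗ[K] V)
  | 0 => (pU s).subtype
  | n + 1 => -((s ((n : ℤ) + 1 + 1) - 1) ∘ₗ bu2_pu s n)

theorem bu2_pu_mem {s : ℤ → Module.End K V} (n : ℕ) (v : pU s) :
    bu2_pu s n v ∈ LinearMap.range (s ((n : ℤ) + 1) - 1) := by
  cases n with
  | zero =>
    have e : ((0 : ℕ) : ℤ) + 1 = 1 := by norm_num
    rw [e]
    exact v.2
  | succ n =>
    have e : ((n + 1 : ℕ) : ℤ) + 1 = (n : ℤ) + 1 + 1 := by push_cast; ring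
    rw [e]
    exact Submodule.neg_mem _ ⟨bu2_pu s n v, rfl⟩

theorem bu2_pu_succ {s : ℤ → Module.End K V} (n : ℕ) (v : pU s) :
    bu2_pu s (n + 1) v = -((s ((n : ℤ) + 1 + 1) - 1) (bu2_pu s n v)) := rfl

theorem bu2_pu_succ' {s : ℤ → Module.End K V} (n : ℕ) (v : pU s) :
    bu2_pu s (n + 1) v = bu2_pu s n v - s ((n : ℤ) + 1 + 1) (bu2_pu s n v) := by
  rw [bu2_pu_succ]
  show -(s ((n : ℤ) + 1 + 1) (bu2_pu s n v) - bu2_pu s n v) = _
  abel

section Main

variable {K V J : Type*} [Field K] [IsAlgClosed K] [AddCommGroup V] [Module K V]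
  [FiniteDimensional K V] [LinearOrder J]

/-- the explicit representation attached to `q`, `d` and the local system `al` on `U` -/
structure BOut (m : ℤ) (s : ℤ → Module.End K V) (a : J → Module.End K V) {U : Type*}
    [AddCommGroup U] [Module K U] (q : K) (d : J → K) (al : J → Module.End K U)
    (u : ℤ → (U →ₗ[K] V)) (w : J → (U →ₗ[K] V)) : Prop where
  q0 : q ≠ 0
  d0 : ∀ j, d j ≠ 0
  uinj : ∀ x, 1 ≤ x → x ≤ m → Function.Injective (u x)
  span : (⨆ x : Set.Icc 1 m, LinearMap.range (u x)) ⊔ (⨆ j, LinearMap.range (w j)) = ⊤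
  irr : ∀ W : Submodule K U, (∀ j, ∀ v ∈ W, al j v ∈ W) → W = ⊥ ∨ W = ⊤
  alinj : ∀ j, Function.Injective (al j)
  s1 : ∀ x, 1 ≤ x → x ≤ m → ∀ v, s x (u x v) = u x v - (1 + q) • u x v
  s2 : ∀ x, 1 ≤ x → x + 1 ≤ m → ∀ v, s (x + 1) (u x v) = u x v - u (x + 1) v
  s3 : ∀ x, 1 ≤ x → x + 1 ≤ m → ∀ v, s x (u (x + 1) v) = u (x + 1) v - q • u x v
  s4 : ∀ x y, 1 ≤ x → x ≤ m → 1 ≤ y → y ≤ m → (x + 2 ≤ y ∨ y + 2 ≤ x) → ∀ v, s x (u y v) = u y v
  w1 : ∀ j v, s 1 (w j v) = w j v - u 1 (v + al j v)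
  w2 : ∀ j v, s 2 (w j v) = w j v - u 2 v
  w3 : ∀ j x, 3 ≤ x → x ≤ m → ∀ v, s x (w j v) = w j v
  a1 : ∀ j v, a j (u 1 v) = d j • w j v
  a2 : ∀ j x, 2 ≤ x → x ≤ m → ∀ v, a j (u x v) = d j • u x v
  aeq : ∀ j v, a j (w j v) = d j • (w j v + (w j (al j v) - u 1 (al j v)))
  alt : ∀ i j, i < j → ∀ v, a i (w j v) =
    d i • (w j v + (w i ((1 - q) • v + al j v) - u 1 ((1 - q) • v + al j v)))
  agt : ∀ i j, j < i → ∀ v, a i (w j v) =
    d i • (w j v + (w i (q⁻¹ • al j v) - u 1 (q⁻¹ • al j v)))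

theorem bu_main {m : ℤ} (hm : 11 ≤ m) {s : ℤ → Module.End K V} {si : Module.End K V}
    {a : J → Module.End K V} (hP : PSys m s si a) (hF : FarZ m s)
    (hC : ∀ x, 1 ≤ x → x + 1 ≤ m → cE s x = 0) (hB : BFacts s si a) (hirr : Irr m s a)
    (h12 : s 1 ≠ 1) :
    ∃ (q : K) (d : J → K) (al : J → Module.End K (pU s)) (u : ℤ → (pU s →ₗ[K] V))
      (w : J → (pU s →ₗ[K] V)), u 1 = (pU s).subtype ∧ BOut m s a q d al u w := by
  have hBm : ∀ j, ∀ u ∈ pU s, pB s a j u ∈ pU s := by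
    intro j u _
    exact Submodule.neg_mem _ ⟨a j u, rfl⟩
  have hDm : ∀ j, ∀ u ∈ pU s, pD s si a j u ∈ pU s := by
    intro j u _
    exact Submodule.neg_mem _ ⟨a j ((s 2 - 1) (si u)), rfl⟩
  have hne : pU s ≠ ⊥ := by
    intro h
    exact h12 (sub_eq_zero.1 (LinearMap.range_eq_bot.1 h))
  obtain ⟨v0, hv0, hv0'⟩ := Submodule.exists_mem_ne_zero_of_ne_bot hne
  -- the scalars
  obtain ⟨c, hc⟩ := bu2_pU_scal hm hP hF hC hB hirr h12 (T := s 1) hB.smem (fun _ _ => rfl)
    (fun j u hu => (hB.bs j u hu).symm) (fun j u hu => (hB.ds j u hu).symm)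
  have hd' : ∀ j, ∃ c : K, ∀ u ∈ pU s, pD s si a j u = c • u := fun j =>
    bu2_pU_scal hm hP hF hC hB hirr h12 (T := pD s si a j) (hDm j) (hB.ds j)
      (fun i u hu => hB.db j i u hu) (fun i u hu => hB.dd j i u hu)
  choose d hd using hd'
  obtain ⟨q, rfl⟩ : ∃ q, c = -q := ⟨-c, (neg_neg c).symm⟩
  have hq : q ≠ 0 := by
    rintro rfl
    apply hv0'
    apply hP.inj 1 ⟨le_rfl, by omega⟩
    rw [hc v0 hv0, neg_zero, zero_smul, map_zero]
  have hd0 : ∀ j, d j ≠ 0 := by
    intro j h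
    apply hv0'
    apply hB.dinj j v0 hv0
    rw [hd j v0 hv0, h, zero_smul]
  have hs1 : ∀ v : pU s, s 1 (v : V) = -(q • (v : V)) := by
    intro v
    rw [hc v v.2, neg_smul]
  have hsi : ∀ v ∈ pU s, si v = -(q⁻¹ • v) := by
    intro v hv
    have h5 : si (s 1 v) = v := LinearMap.congr_fun hP.inv2 v
    rw [hc v hv, map_smul] at h5
    have h6 : -(q⁻¹ • v) = -(q⁻¹ • ((-q) • si v)) := by rw [h5]
    rw [h6, smul_smul, mul_neg, inv_mul_cancel₀ hq, neg_smul, one_smul, neg_neg]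
  -- the local system
  set al : J → Module.End K (pU s) := fun j =>
    (d j)⁻¹ • ((pB s a j).restrict (hBm j)) - 1 with hal
  have hB' : ∀ j (v : pU s), pB s a j (v : V) = d j • ((v : V) + (al j v : V)) := by
    intro j v
    have h1 : ((al j v : pU s) : V) = (d j)⁻¹ • pB s a j (v : V) - (v : V) := rfl
    rw [h1, add_sub_cancel, smul_smul, mul_inv_cancel₀ (hd0 j), one_smul]
  have he1 : ∀ j (v : pU s), (s 1 - 1) (a j (v : V)) = -(d j • ((v : V) + (al j v : V))) := by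
    intro j v
    rw [← hB']
    show (s 1 - 1) (a j (v : V)) = - -((s 1 - 1) (a j (v : V)))
    rw [neg_neg]
  set w : J → (pU s →ₗ[K] V) := fun j => (d j)⁻¹ • (a j ∘ₗ (pU s).subtype) with hw
  have hwv : ∀ j (v : pU s), w j v = (d j)⁻¹ • a j (v : V) := fun j v => rfl
  have haw : ∀ j (v : pU s), a j (v : V) = d j • w j v := by
    intro j v
    rw [hwv, smul_smul, mul_inv_cancel₀ (hd0 j), one_smul]
  set u : ℤ → (pU s →ₗ[K] V) := fun x => bu2_pu s (x - 1).toNat with hu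
  have hux : ∀ n : ℕ, u ((n : ℤ) + 1) = bu2_pu s n := by
    intro n
    show bu2_pu s ((n : ℤ) + 1 - 1).toNat = bu2_pu s n
    congr 1
    omega
  have hux2 : ∀ n : ℕ, u ((n : ℤ) + 1 + 1) = bu2_pu s (n + 1) := by
    intro n
    show bu2_pu s ((n : ℤ) + 1 + 1 - 1).toNat = bu2_pu s (n + 1)
    congr 1
    omega
  have hu1 : u 1 = (pU s).subtype := by
    show bu2_pu s ((1 : ℤ) - 1).toNat = (pU s).subtype
    have e : ((1 : ℤ) - 1).toNat = 0 := by norm_num
    rw [e]
    rfl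
  have toN : ∀ x : ℤ, 1 ≤ x → ∃ n : ℕ, x = (n : ℤ) + 1 := fun x hx => ⟨(x - 1).toNat, by omega⟩
  -- `s x` on `u x`
  have own : ∀ n : ℕ, (n : ℤ) + 1 ≤ m → ∀ v, s ((n : ℤ) + 1) (bu2_pu s n v) = -(q • bu2_pu s n v) := by
    intro n
    induction n with
    | zero =>
      intro _ v
      have e : ((0 : ℕ) : ℤ) + 1 = 1 := by norm_num
      rw [e]
      exact hs1 v
    | succ n ih =>
      intro hn v
      have e : ((n + 1 : ℕ) : ℤ) + 1 = (n : ℤ) + 1 + 1 := by push_cast; ring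
      rw [e] at hn ⊢
      rw [bu2_pu_succ, map_neg, bu2_s_up (hP.chain.braid ((n : ℤ) + 1) ⟨by omega, by omega⟩
        ((n : ℤ) + 1 + 1) ⟨by omega, by omega⟩ (hum_chain (by omega))) (hC _ (by omega) hn)
        (bu2_pu_mem n v), ih (by omega) v, map_neg, map_smul, smul_neg]
  have prv : ∀ n : ℕ, (n : ℤ) + 1 + 1 ≤ m → ∀ v,
      s ((n : ℤ) + 1) (bu2_pu s (n + 1) v) = bu2_pu s (n + 1) v - q • bu2_pu s n v := by
    intro n hn v
    have h1 := bu2_psi_up (hC ((n : ℤ) + 1) (by omega) hn) (bu2_pu_mem n v)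
    rw [own n (by omega) v, neg_neg] at h1
    have h2 : s ((n : ℤ) + 1) (bu2_pu s (n + 1) v) = bu2_pu s (n + 1) v +
        (s ((n : ℤ) + 1) - 1) (bu2_pu s (n + 1) v) := by
      show _ = bu2_pu s (n + 1) v + (s ((n : ℤ) + 1) (bu2_pu s (n + 1) v) - bu2_pu s (n + 1) v)
      abel
    rw [h2, bu2_pu_succ, map_neg, h1]
    abel
  have fr : ∀ (n : ℕ) (x : ℤ), 1 ≤ x → x ≤ m → (n : ℤ) + 1 ≤ m →
      (x + 2 ≤ (n : ℤ) + 1 ∨ (n : ℤ) + 1 + 2 ≤ x) → ∀ v, s x (bu2_pu s n v) = bu2_pu s n v := by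
    intro n x hx hxm hn h v
    exact sub_eq_zero.1 (bu2_far_fix hF hx hxm (by omega) hn h (bu2_pu_mem n v))
  have e2a : ∀ j (v : pU s), (s 2 - 1) (a j (v : V)) = d j • (s 2 - 1) (v : V) := by
    intro j v
    rw [hB.act2' j v v.2, hd j v v.2, map_smul]
  have e3a : ∀ j x, 3 ≤ x → x ≤ m → ∀ v : pU s, s x (a j (v : V)) = a j (v : V) := by
    intro j x hx hxm v
    have h4 := LinearMap.congr_fun (hP.far j x (by omega) hxm) (v : V)
    have h5 : a j (s x (v : V)) = s x (a j (v : V)) := h4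
    rw [← h5]
    congr 1
    exact sub_eq_zero.1 (bu2_far_fix hF (y := 1) (by omega) hxm le_rfl (by omega) (by omega) v.2)
  have au : ∀ j (n : ℕ), (n : ℤ) + 1 + 1 ≤ m → ∀ v, a j (bu2_pu s (n + 1) v) = d j • bu2_pu s (n + 1) v := by
    intro j n
    induction n with
    | zero =>
      intro _ v
      have e : ((0 : ℕ) : ℤ) + 1 + 1 = 2 := by norm_num
      have h1 := hB.act2 j v v.2
      rw [hd j v v.2, map_smul] at h1
      rw [bu2_pu_succ, e, map_neg, smul_neg]
      exact congrArg Neg.neg h1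
    | succ n ih =>
      intro hn v
      have hn' : (n : ℤ) + 1 + 1 ≤ m := by push_cast at hn; omega
      have h4 := LinearMap.congr_fun (hP.far j (((n + 1 : ℕ) : ℤ) + 1 + 1) (by push_cast; omega) hn)
        (bu2_pu s (n + 1) v)
      have h5 : a j (s (((n + 1 : ℕ) : ℤ) + 1 + 1) (bu2_pu s (n + 1) v)) =
        s (((n + 1 : ℕ) : ℤ) + 1 + 1) (a j (bu2_pu s (n + 1) v)) := h4
      rw [bu2_pu_succ' (n + 1) v, map_sub, h5, ih hn' v, map_smul, smul_sub]
  -- the three relations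
  have rel : ∀ i j (v g : pU s), a i (a j (v : V)) = d j • a i (g : V) + d i • a j (v : V) -
      (d i * d j) • (g : V) → a i (w j v) = d i • (w j v + (w i g - u 1 g)) := by
    intro i j v g h
    rw [hwv, map_smul, h, hu1, hwv]
    show (d j)⁻¹ • (d j • a i (g : V) + d i • a j (v : V) - (d i * d j) • (g : V)) =
      d i • ((d j)⁻¹ • a j (v : V) + ((d i)⁻¹ • a i (g : V) - (g : V)))
    rw [smul_sub, smul_add, smul_smul, inv_mul_cancel₀ (hd0 j), one_smul, smul_add, smul_sub,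
      smul_smul (d i) (d i)⁻¹, mul_inv_cancel₀ (hd0 i), one_smul, smul_smul, smul_smul, smul_smul,
      mul_comm (d i) (d j), ← mul_assoc, inv_mul_cancel₀ (hd0 j), one_mul, mul_comm (d j)⁻¹]
    abel
  refine ⟨q, d, al, u, w, hu1, ?_⟩
  refine
    { q0 := hq
      d0 := hd0
      uinj := ?_
      span := ?_
      irr := ?_
      alinj := ?_
      s1 := ?_
      s2 := ?_
      s3 := ?_
      s4 := ?_
      w1 := ?_
      w2 := ?_
      w3 := ?_
      a1 := ?_
      a2 := ?_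
      aeq := ?_
      alt := ?_
      agt := ?_ }
  · -- uinj
    have h : ∀ n : ℕ, (n : ℤ) + 1 ≤ m → ∀ v, bu2_pu s n v = 0 → v = 0 := by
      intro n
      induction n with
      | zero => intro _ v hv; exact Subtype.ext hv
      | succ n ih =>
        intro hn v hv
        push_cast at hn
        have h1 := prv n hn v
        rw [hv, map_zero, zero_sub] at h1
        have h2 : q • bu2_pu s n v = 0 := neg_eq_zero.1 h1.symm
        exact ih (by omega) v ((smul_eq_zero.1 h2).resolve_left hq)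
    intro x hx hxm
    obtain ⟨n, rfl⟩ := toN x hx
    rw [hux]
    exact (injective_iff_map_eq_zero _).2 (fun v hv => h n hxm v hv)
  · -- span
    have ht := bu2_pN_top (U' := pU s) hm hP hF hC hB hirr le_rfl hB.smem hBm hDm hne
    rw [eq_top_iff, ← ht]
    refine bu2_pN_le ?_ ?_
    · intro n hn z hz
      have h : ∀ n : ℕ, ∀ z ∈ bu2_pX s (pU s) n, ∃ v, bu2_pu s n v = z := by
        intro n
        induction n with
        | zero => intro z hz; exact ⟨⟨z, hz⟩, rfl⟩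
        | succ n ih =>
          rintro _ ⟨z, hz, rfl⟩
          obtain ⟨v, rfl⟩ := ih z hz
          refine ⟨-v, ?_⟩
          rw [map_neg, bu2_pu_succ, neg_neg]
      obtain ⟨v, hv⟩ := h n z hz
      refine Submodule.mem_sup_left (Submodule.mem_iSup_of_mem
        (⟨(n : ℤ) + 1, by omega, hn⟩ : Set.Icc 1 m) ?_)
      exact ⟨v, by rw [hux, hv]⟩
    · intro j z hz
      refine Submodule.mem_sup_right (Submodule.mem_iSup_of_mem j ⟨d j • ⟨z, hz⟩, ?_⟩)
      rw [map_smul, ← haw]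
  · -- irr
    intro W hW
    have h := bu2_pU_simple (U' := W.map (pU s).subtype) hm hP hF hC hB hirr
      (by rintro _ ⟨v, _, rfl⟩; exact v.2)
      (by
        rintro _ ⟨v, hv, rfl⟩
        refine ⟨-(q • v), W.neg_mem (W.smul_mem _ hv), ?_⟩
        exact (hs1 v).symm)
      (by
        rintro j _ ⟨v, hv, rfl⟩
        refine ⟨d j • (v + al j v), W.smul_mem _ (W.add_mem hv (hW j v hv)), ?_⟩
        exact (hB' j v).symm)
      (by
        rintro j _ ⟨v, hv, rfl⟩
        refine ⟨d j • v, W.smul_mem _ hv, ?_⟩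
        exact (hd j v v.2).symm)
    rcases h with h | h
    · left
      rw [eq_bot_iff]
      intro v hv
      have h3 : (v : V) ∈ W.map (pU s).subtype := ⟨v, hv, rfl⟩
      rw [h] at h3
      exact (Submodule.mem_bot K).2 (Subtype.ext ((Submodule.mem_bot K).1 h3))
    · right
      rw [eq_top_iff]
      intro v _
      have h3 : (v : V) ∈ W.map (pU s).subtype := by rw [h]; exact v.2
      obtain ⟨v', hv', h4⟩ := h3
      have h5 : v' = v := Subtype.ext h4
      rw [← h5]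
      exact hv'
  · -- alinj
    intro j
    refine (injective_iff_map_eq_zero _).2 fun v hv => ?_
    have hB1 : pB s a j (v : V) = d j • (v : V) := by
      rw [hB', hv]
      show d j • ((v : V) + (0 : V)) = _
      rw [add_zero]
    have h1 := hB.own j v v.2
    rw [hd j v v.2, hB1, map_smul, map_smul, map_smul, hd j v v.2, hB1, smul_smul,
      add_sub_cancel_right] at h1
    -- `h1 : a j (a j v) = d j • a j v`
    have h2 : s 1 (a j (v : V)) = a j (v : V) - d j • (v : V) := by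
      have h3 := he1 j v
      rw [hv] at h3
      have h4 : s 1 (a j (v : V)) - a j (v : V) = -(d j • ((v : V) + (0 : V))) := h3
      rw [add_zero] at h4
      have h5 : s 1 (a j (v : V)) = (s 1 (a j (v : V)) - a j (v : V)) + a j (v : V) := by abel
      rw [h5, h4]
      abel
    have h3 : a j (s 1 (a j (v : V))) = 0 := by rw [h2, map_sub, map_smul, h1, sub_self]
    have h4 : s 1 (a j (v : V)) = 0 := hP.ainj j (by rw [h3, map_zero])
    have h5 : a j (v : V) = 0 := hP.inj 1 ⟨le_rfl, by omega⟩ (by rw [h4, map_zero])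
    have h6 : (v : V) = 0 := hP.ainj j (by rw [h5, map_zero])
    exact Subtype.ext h6
  · -- s1
    intro x hx hxm v
    obtain ⟨n, rfl⟩ := toN x hx
    rw [hux, own n hxm v, add_smul, one_smul]
    abel
  · -- s2
    intro x hx hxm v
    obtain ⟨n, rfl⟩ := toN x hx
    rw [hux, hux2, bu2_pu_succ']
    abel
  · -- s3
    intro x hx hxm v
    obtain ⟨n, rfl⟩ := toN x hx
    rw [hux, hux2, prv n hxm v]
  · -- s4
    intro x y hx hxm hy hym h v
    obtain ⟨n, rfl⟩ := toN y hy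
    rw [hux]
    exact fr n x hx hxm hym h v
  · -- w1
    intro j v
    have h3 := he1 j v
    have h4 : s 1 (a j (v : V)) - a j (v : V) = -(d j • ((v : V) + (al j v : V))) := h3
    have h5 : s 1 (a j (v : V)) = a j (v : V) - d j • ((v : V) + (al j v : V)) := by
      have h6 : s 1 (a j (v : V)) = (s 1 (a j (v : V)) - a j (v : V)) + a j (v : V) := by abel
      rw [h6, h4]
      abel
    rw [hwv, map_smul, h5, smul_sub, smul_smul, inv_mul_cancel₀ (hd0 j), one_smul, hu1]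
    rfl
  · -- w2
    intro j v
    have h4 : s 2 (a j (v : V)) - a j (v : V) = d j • (s 2 - 1) (v : V) := e2a j v
    have h5 : s 2 (a j (v : V)) = a j (v : V) + d j • (s 2 - 1) (v : V) := by
      have h6 : s 2 (a j (v : V)) = (s 2 (a j (v : V)) - a j (v : V)) + a j (v : V) := by abel
      rw [h6, h4]
      abel
    have h7 : u 2 v = -((s 2 - 1) (v : V)) := by
      have h8 := hux2 0
      have e : ((0 : ℕ) : ℤ) + 1 + 1 = 2 := by norm_num
      rw [e] at h8
      rw [h8, bu2_pu_succ, e]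
      rfl
    rw [hwv, map_smul, h5, smul_add, smul_smul, inv_mul_cancel₀ (hd0 j), one_smul, h7,
      sub_neg_eq_add]
  · -- w3
    intro j x hx hxm v
    rw [hwv, map_smul, e3a j x hx hxm v]
  · -- a1
    intro j v
    rw [hu1]
    exact haw j v
  · -- a2
    intro j x hx hxm v
    obtain ⟨n, rfl⟩ : ∃ n : ℕ, x = (n : ℤ) + 1 + 1 := ⟨(x - 2).toNat, by omega⟩
    rw [hux2]
    exact au j n hxm v
  · -- aeq
    intro j v
    refine rel j j v (al j v) ?_
    have h1 := hB.own j v v.2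
    rw [hd j v v.2, hB', map_smul, map_smul, map_smul, hd j v v.2, hB', map_add] at h1
    rw [h1]
    simp only [smul_add, smul_smul]
    abel
  · -- alt
    intro i j hij v
    refine rel i j v ((1 - q) • v + al j v) ?_
    have h1 := hB.lo i j hij v v.2
    rw [hd i v v.2, hs1 v, map_smul (s 1), hs1 v] at h1
    have k1 : pD s si a j (-(q • (v : V))) = -(q • d j • (v : V)) := by
      rw [map_neg, map_smul, hd j v v.2]
    have k2 : pD s si a j (d i • -(q • (v : V))) = d i • -(q • d j • (v : V)) := by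
      rw [map_smul, k1]
    rw [k1, k2, map_smul (pB s a j), hB', map_smul (a j)] at h1
    rw [h1]
    have k3 : (((1 - q) • v + al j v : pU s) : V) = (1 - q) • (v : V) + (al j v : V) := rfl
    rw [k3]
    simp only [map_add, map_smul, map_neg, smul_add, smul_smul, sub_smul, one_smul, smul_neg,
      smul_sub, map_sub]
    have c1 : q * d j = d j * q := mul_comm _ _
    have c2 : d i * (d j * q) = d i * d j * q := by ring
    rw [c1, c2]
    abel
  · -- agt
    intro i j hij v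
    refine rel i j v (q⁻¹ • al j v) ?_
    have h1 := hB.hi j i hij v v.2
    have k1 : pD s si a j (v : V) - pB s a j (v : V) = -(d j • (al j v : V)) := by
      rw [hd j v v.2, hB', smul_add]
      abel
    have k2 : pB s a j (pD s si a i (v : V)) - pD s si a i (pD s si a j (v : V)) =
        (d i * d j) • (al j v : V) := by
      rw [hd i v v.2, hd j v v.2, map_smul, map_smul, hd i v v.2, hB', smul_smul, smul_smul,
        mul_comm (d j) (d i), smul_add]
      abel
    have k3 : si (-(d j • (al j v : V))) = d j • q⁻¹ • (al j v : V) := by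
      rw [map_neg, map_smul, hsi _ (al j v).2, smul_neg, neg_neg]
    have k4 : si ((d i * d j) • (al j v : V)) = -((d i * d j) • q⁻¹ • (al j v : V)) := by
      rw [map_smul, hsi _ (al j v).2, smul_neg]
    rw [k1, k2, k3, k4, hd i v v.2] at h1
    rw [h1]
    have k5 : ((q⁻¹ • al j v : pU s) : V) = q⁻¹ • (al j v : V) := rfl
    rw [k5]
    simp only [map_smul]
    abel

end Main

end Pool.Agent.PCF
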