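import Pool.Agent.Lib.PCF.Defs

/-!
# Module BU1: the algebra on `U = pU s = range (s 1 - 1)` when the crossed elements vanish

Write `e x = s x - 1`, `U = range (e 1)`, `V2 = range (e 2)`, `a = a j`. From `hC` (use `cE` and
`cE_eq`): `e1 + e1 e1 + e1 e2 e1 = 0` and `e2 + e2 e2 + e2 e1 e2 = 0`. Hence
* psi: `e1 e2 u = - s1 u` for `u in U` (`u = e1 z`: `e1 e2 e1 z = - e1 z - e1 e1 z = - s1 u`);
* psi': `e2 e1 v = - s2 v` for `v in V2`. So `e1` is injective on `V2`, and each `u in U` is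
  `e1 v` with `v = - e2 (si u) in V2` (as `e1 e2 (si u) = - s1 (si u) = - u`; `si u in U` because
  `s1 U <= U` and `s1` is injective, `U` finite dimensional; or: `si u = si e1 z = e1 si z`, since
  `si` commutes with `s1`). Also `e1 s2 v = s1 e1 v` for `v in V2` (`= - e1 e2 e1 v`).
* `D u = - e1 a e2 si u = e1 (a v)` where `v = - e2 (si u)`, `e1 v = u`; `a v in V2` as `a`
  commutes with `e2`. So: (D) for `v in V2`: `e1 (a v) = D (e1 v)`. Injective: composition of
  injective maps (dinj). act2: both sides are in `V2`, apply `e1`: `D e1 e2 u = - D s1 u` and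
  `e1 e2 D u = - s1 D u`; ds: `D s1 = s1 D` on `U` as `a s2 = s2 a` and `e1 s2 v = s1 e1 v`.
  act2': `e2 a u = a e2 u`.
* own: the relation `a s1 a s1 = s1 a s1 a` with `s1 = 1 + e1` says
  (R) `a a e1 + a e1 a e1 = e1 a a + e1 a e1 a`. Apply (R) to `v in V2` with `e1 v = u`:
  `a a u + a e1 a u = e1 a a v + e1 a e1 a v`, with `e1 a u = - B u`, `e1 a a v = D D u`,
  `e1 a (e1 a v) = e1 a (D u) = - B D u`. So `a a u = a B u + D D u - B D u`.
* db for `i = j`: apply `e2` and then `e1` to own: `e1 a a e2 u = - D D s1 u`,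
  `e1 a e2 B u = - D s1 B u`, `e1 e2 w = - s1 w` for `w in U`: get `D s1 B u = s1 B D u`, so
  `D B = B D` (ds, `s1` injective).
* bs: apply `e1` to own, and (R) to `u` itself: with `E = e1` on `U`:
  (R) u: `a a E u + a e1 a E u = e1 a a u + e1 a e1 a u`, left side (own at `E u in U`)
  `= (D D - B D) E u`, right side `= (- B B u + E (D D - B D) u) + B B u`. So
  `(D D - B D) E = E (D D - B D)`, and as `D E = E D`, `D B = B D`: `D (B E u - E B u) = 0`, so
  `B E = E B` on `U` by dinj. Then `B s1 = s1 B`.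
* dd: on `V3 = range (e 3)` one has `s1 v = v` (far pair 1, 3), so `cross` gives
  `a i a j v = a j a i v` for `v in V3`; for `u in U`, `e3 e2 u in V3`, and
  `e3 a a' e2 u = a a' e3 e2 u`, and `e3` is injective on `V2` (cE s 2 = 0, both forms). So
  `a i a j = a j a i` on `V2`, so `D i D j = D j D i` by (D).
* lo (`i < j`): apply `cross i j` to `v in V2` with `e1 v = s1 y`, `y in U` (`y` arbitrary):
  `si v = v - y`; `s1 a j si v = a j v + e1 a j v - a j y - e1 a j y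
   = a j v - a j y + D j s1 y + B j y`. Left side: `a i a j v - a i a j y + a i (D j s1 + B j) y`.
  Right side: the same formula for `a i v in V2`, `e1 (a i v) = D i s1 y = s1 D i y`:
  `a j a i v - a j D i y + (D j s1 + B j) D i y`. As `a i a j v = a j a i v` this is `lo`.
* db for `i < j` (`D i B j = B j D i`): apply `e2`, then `e1` to lo.
* hi: apply `cross i j` to `y in U`, `z = si y`: left side `a i (a j z - B j z)`, insert lo for
  `a i a j z`; right side: `si a i y = a i y + si B i y`, so it is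
  `s1 a j a i y + a j si B i y - B j si B i y`. Solve for `s1 a j a i y`, apply `si`
  (`si w = si w` on `U`; `si a i x = a i x + si B i x`, same for `j`).
* db for the pair `D j B i = B i D j`: apply `e2`, then `e1` to hi.
(Order of the proofs: psi, simem, D, ds, act2, dinj, own, db i = i, bs, dd, lo, db i<j, hi, db j>i.)
-/

namespace Pool.Agent.PCF

open Pool.Agent.Art

variable {K V J : Type*} [Field K] [AddCommGroup V] [Module K V] [LinearOrder J]

/-- the hypotheses, pointwise -/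
structure Bu1H (A e1 e2 e3 I : Module.End K V) (a b d : J → Module.End K V) : Prop where
  hA : ∀ x, A x = x + e1 x
  AI : ∀ x, A (I x) = x
  IA : ∀ x, I (A x) = x
  Binj : ∀ x, x + e2 x = 0 → x = 0
  ainj : ∀ j x, a j x = 0 → x = 0
  c1 : ∀ z, e1 z + e1 (e1 z) + e1 (e2 (e1 z)) = 0
  c1' : ∀ z, e2 z + e2 (e2 z) + e2 (e1 (e2 z)) = 0
  c2 : ∀ z, e2 z + e2 (e2 z) + e2 (e3 (e2 z)) = 0
  far13 : ∀ z, e1 (e3 z) = 0
  a2 : ∀ j x, a j (e2 x) = e2 (a j x)
  a3 : ∀ j x, a j (e3 x) = e3 (a j x)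
  own : ∀ j x, a j (A (a j (A x))) = A (a j (A (a j x)))
  cross : ∀ i j, i < j → ∀ x, a i (A (a j (I x))) = A (a j (I (a i x)))
  hb : ∀ j x, b j x = -(e1 (a j x))
  hd : ∀ j x, d j x = -(e1 (a j (e2 (I x))))

section

variable {A e1 e2 e3 I : Module.End K V} {a b d : J → Module.End K V}

theorem bu1_psi (h : Bu1H A e1 e2 e3 I a b d) :
    ∀ u ∈ LinearMap.range e1, e1 (e2 u) = -(A u) := by
  rintro _ ⟨z, rfl⟩
  rw [h.hA]
  exact eq_neg_of_add_eq_zero_right (h.c1 z)

theorem bu1_ainj (h : Bu1H A e1 e2 e3 I a b d) {x : V} (hx : A x = 0) : x = 0 := by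
  rw [← h.IA x, hx, map_zero]

theorem bu1_acan (h : Bu1H A e1 e2 e3 I a b d) {x y : V} (hx : A x = A y) : x = y := by
  rw [← h.IA x, hx, h.IA]

theorem bu1_einj2 (h : Bu1H A e1 e2 e3 I a b d) :
    ∀ v ∈ LinearMap.range e2, e1 v = 0 → v = 0 := by
  rintro _ ⟨z, rfl⟩ h0
  have h1 := h.c1' z
  rw [h0, map_zero, add_zero] at h1
  exact h.Binj _ h1

theorem bu1_einj3 (h : Bu1H A e1 e2 e3 I a b d) :
    ∀ v ∈ LinearMap.range e2, e3 v = 0 → v = 0 := by
  rintro _ ⟨z, rfl⟩ h0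
  have h1 := h.c2 z
  rw [h0, map_zero, add_zero] at h1
  exact h.Binj _ h1

theorem bu1_ecan2 (h : Bu1H A e1 e2 e3 I a b d) {v w : V} (hv : v ∈ LinearMap.range e2)
    (hw : w ∈ LinearMap.range e2) (hvw : e1 v = e1 w) : v = w := by
  refine sub_eq_zero.1 (bu1_einj2 h _ (Submodule.sub_mem _ hv hw) ?_)
  rw [map_sub, hvw, sub_self]

theorem bu1_ecan3 (h : Bu1H A e1 e2 e3 I a b d) {v w : V} (hv : v ∈ LinearMap.range e2)
    (hw : w ∈ LinearMap.range e2) (hvw : e3 v = e3 w) : v = w := by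
  refine sub_eq_zero.1 (bu1_einj3 h _ (Submodule.sub_mem _ hv hw) ?_)
  rw [map_sub, hvw, sub_self]

theorem bu1_imem (h : Bu1H A e1 e2 e3 I a b d) :
    ∀ u ∈ LinearMap.range e1, I u ∈ LinearMap.range e1 := by
  rintro _ ⟨z, rfl⟩
  refine ⟨I z, ?_⟩
  have h1 := h.hA (I z)
  rw [h.AI] at h1
  have h2 : e1 z = A z - z := by rw [h.hA]; abel
  have h3 : e1 (I z) = z - I z := by
    nth_rewrite 2 [h1]
    abel
  rw [h3, h2, map_sub, h.IA]

theorem bu1_Amem (h : Bu1H A e1 e2 e3 I a b d) :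
    ∀ u ∈ LinearMap.range e1, A u ∈ LinearMap.range e1 := by
  intro u hu
  rw [h.hA]
  exact Submodule.add_mem _ hu ⟨_, rfl⟩

theorem bu1_dmem (h : Bu1H A e1 e2 e3 I a b d) (j : J) (u : V) : d j u ∈ LinearMap.range e1 := by
  rw [h.hd]
  exact Submodule.neg_mem _ ⟨_, rfl⟩

theorem bu1_bmem (h : Bu1H A e1 e2 e3 I a b d) (j : J) (u : V) : b j u ∈ LinearMap.range e1 := by
  rw [h.hb]
  exact Submodule.neg_mem _ ⟨_, rfl⟩

theorem bu1_sig (h : Bu1H A e1 e2 e3 I a b d) :
    ∀ u ∈ LinearMap.range e1, ∃ v ∈ LinearMap.range e2, e1 v = u := by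
  intro u hu
  refine ⟨-(e2 (I u)), Submodule.neg_mem _ ⟨_, rfl⟩, ?_⟩
  rw [map_neg, bu1_psi h _ (bu1_imem h u hu), neg_neg, h.AI]

theorem bu1_D (h : Bu1H A e1 e2 e3 I a b d) (j : J) :
    ∀ v ∈ LinearMap.range e2, d j (e1 v) = e1 (a j v) := by
  intro v hv
  have h1 : -(e2 (I (e1 v))) = v := by
    refine bu1_ecan2 h (Submodule.neg_mem _ ⟨_, rfl⟩) hv ?_
    rw [map_neg, bu1_psi h _ (bu1_imem h _ ⟨v, rfl⟩), neg_neg, h.AI]
  rw [h.hd, ← map_neg, ← map_neg, h1]

theorem bu1_amem2 (h : Bu1H A e1 e2 e3 I a b d) (j : J) :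
    ∀ v ∈ LinearMap.range e2, a j v ∈ LinearMap.range e2 := by
  rintro _ ⟨z, rfl⟩
  exact ⟨a j z, (h.a2 j z).symm⟩

theorem bu1_e1B (h : Bu1H A e1 e2 e3 I a b d) :
    ∀ v ∈ LinearMap.range e2, e1 (v + e2 v) = A (e1 v) := by
  intro v hv
  have h1 : v + e2 v = -(e2 (e1 v)) := by
    obtain ⟨z, rfl⟩ := hv
    exact eq_neg_of_add_eq_zero_left (h.c1' z)
  rw [h1, map_neg, bu1_psi h _ ⟨v, rfl⟩, neg_neg]

theorem bu1_dinj (h : Bu1H A e1 e2 e3 I a b d) (j : J) :
    ∀ u ∈ LinearMap.range e1, d j u = 0 → u = 0 := by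
  intro u hu h0
  obtain ⟨v, hv, rfl⟩ := bu1_sig h u hu
  rw [bu1_D h j v hv] at h0
  have h1 := bu1_einj2 h _ (bu1_amem2 h j v hv) h0
  rw [h.ainj j v h1, map_zero]

theorem bu1_dcan (h : Bu1H A e1 e2 e3 I a b d) (j : J) {u w : V} (hu : u ∈ LinearMap.range e1)
    (hw : w ∈ LinearMap.range e1) (huw : d j u = d j w) : u = w := by
  refine sub_eq_zero.1 (bu1_dinj h j _ (Submodule.sub_mem _ hu hw) ?_)
  rw [map_sub, huw, sub_self]

theorem bu1_ds (h : Bu1H A e1 e2 e3 I a b d) (j : J) :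
    ∀ u ∈ LinearMap.range e1, d j (A u) = A (d j u) := by
  intro u hu
  obtain ⟨v, hv, rfl⟩ := bu1_sig h u hu
  rw [← bu1_e1B h v hv, bu1_D h j _ (Submodule.add_mem _ hv ⟨_, rfl⟩), map_add, h.a2,
    bu1_e1B h _ (bu1_amem2 h j v hv), bu1_D h j v hv]

theorem bu1_di (h : Bu1H A e1 e2 e3 I a b d) (j : J) :
    ∀ u ∈ LinearMap.range e1, d j (I u) = I (d j u) := by
  intro u hu
  apply bu1_acan h
  rw [← bu1_ds h j _ (bu1_imem h u hu), h.AI, h.AI]

theorem bu1_act2 (h : Bu1H A e1 e2 e3 I a b d) (j : J) :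
    ∀ u ∈ LinearMap.range e1, a j (e2 u) = e2 (d j u) := by
  intro u hu
  refine bu1_ecan2 h (bu1_amem2 h j _ ⟨u, rfl⟩) ⟨_, rfl⟩ ?_
  rw [← bu1_D h j _ ⟨u, rfl⟩, bu1_psi h u hu, map_neg, bu1_ds h j u hu,
    bu1_psi h _ (bu1_dmem h j u)]

/-- `e1 e2 a` on `U` -/
theorem bu1_eea (h : Bu1H A e1 e2 e3 I a b d) (j : J) (u : V) :
    e1 (e2 (a j u)) = d j (e1 (e2 u)) := by
  rw [← h.a2, bu1_D h j _ ⟨u, rfl⟩]

/-- the relation (R) -/
theorem bu1_R (h : Bu1H A e1 e2 e3 I a b d) (j : J) (x : V) :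
    a j (a j (e1 x)) + a j (e1 (a j (e1 x))) = e1 (a j (a j x)) + e1 (a j (e1 (a j x))) := by
  have h1 := h.own j x
  rw [h.hA x, h.hA (a j x), map_add (a j) x, map_add (a j) (a j x), h.hA (a j x + a j (e1 x)),
    h.hA (a j (a j x) + a j (e1 (a j x)))] at h1
  simp only [map_add] at h1
  have h2 : a j (a j (e1 x)) + a j (e1 (a j (e1 x))) =
      (a j (a j x) + a j (a j (e1 x)) + (a j (e1 (a j x)) + a j (e1 (a j (e1 x))))) -
        a j (a j x) - a j (e1 (a j x)) := by abel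
  rw [h2, h1]
  abel

theorem bu1_own (h : Bu1H A e1 e2 e3 I a b d) (i : J) :
    ∀ u ∈ LinearMap.range e1, a i (a i u) = a i (b i u) + d i (d i u) - b i (d i u) := by
  intro u hu
  obtain ⟨v, hv, rfl⟩ := bu1_sig h u hu
  have h1 := bu1_R h i v
  have h2 : e1 (a i (a i v)) = d i (d i (e1 v)) := by
    rw [bu1_D h i v hv, bu1_D h i _ (bu1_amem2 h i v hv)]
  rw [h2, ← bu1_D h i v hv] at h1
  rw [h.hb, h.hb, map_neg]
  have h3 : a i (a i (e1 v)) = (a i (a i (e1 v)) + a i (e1 (a i (e1 v)))) -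
    a i (e1 (a i (e1 v))) := by abel
  rw [h3, h1]
  abel

theorem bu1_dbs (h : Bu1H A e1 e2 e3 I a b d) (i : J) :
    ∀ u ∈ LinearMap.range e1, d i (b i u) = b i (d i u) := by
  intro u hu
  have h1 := congrArg (fun x => e1 (e2 x)) (bu1_own h i u hu)
  simp only [map_add, map_sub] at h1
  rw [bu1_eea h, bu1_eea h, bu1_eea h, bu1_psi h u hu, bu1_psi h _ (bu1_bmem h i u),
    bu1_psi h _ (bu1_dmem h i _), bu1_psi h _ (bu1_bmem h i _)] at h1
  simp only [map_neg] at h1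
  rw [bu1_ds h i u hu, bu1_ds h i _ (bu1_dmem h i u), bu1_ds h i _ (bu1_bmem h i u)] at h1
  apply bu1_acan h
  have h2 : A (b i (d i u)) = (-(A (d i (b i u))) + -(A (d i (d i u))) - -(A (b i (d i u)))) +
    A (d i (b i u)) + A (d i (d i u)) := by abel
  rw [h2, ← h1]
  abel

theorem bu1_bs (h : Bu1H A e1 e2 e3 I a b d) (i : J) :
    ∀ u ∈ LinearMap.range e1, b i (A u) = A (b i u) := by
  intro u hu
  have hE : e1 u ∈ LinearMap.range e1 := ⟨u, rfl⟩
  have de : ∀ w ∈ LinearMap.range e1, d i (e1 w) = e1 (d i w) := by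
    intro w hw
    have k := bu1_ds h i w hw
    rw [h.hA, h.hA, map_add] at k
    exact add_left_cancel k
  -- `e1` of own
  have h1 := congrArg (fun x => e1 x) (bu1_own h i u hu)
  simp only [map_add, map_sub] at h1
  have h2 := bu1_R h i u
  have h3 := bu1_own h i (e1 u) hE
  have hb' : ∀ x, e1 (a i x) = -(b i x) := fun x => by rw [h.hb, neg_neg]
  rw [hb' (a i u)] at h1
  rw [hb' (e1 u), hb' (a i u), hb' u] at h2
  rw [hb' (b i u)] at h1
  simp only [map_neg] at h2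
  rw [hb' (b i u), h1, h3, neg_neg] at h2
  rw [de u hu, de _ (bu1_dmem h i u)] at h2
  -- h2 : b d e = e b d
  have h4 : b i (e1 (d i u)) = e1 (b i (d i u)) := by
    have k : b i (e1 (d i u)) = (a i (b i (e1 u)) + e1 (d i (d i u))) -
      (a i (b i (e1 u)) + e1 (d i (d i u)) - b i (e1 (d i u)) + -(a i (b i (e1 u)))) -
      a i (b i (e1 u)) := by abel
    rw [k, h2]
    abel
  have h5 : d i (b i (e1 u)) = d i (e1 (b i u)) := by
    rw [bu1_dbs h i _ hE, de u hu, h4, de _ (bu1_bmem h i u), bu1_dbs h i u hu]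
  have h6 := bu1_dcan h i (bu1_bmem h i _) ⟨_, rfl⟩ h5
  rw [h.hA, h.hA, map_add, h6]

/-- the `a i` commute on the image of `e2` -/
theorem bu1_comm2 (h : Bu1H A e1 e2 e3 I a b d) (i j : J) :
    ∀ v ∈ LinearMap.range e2, a i (a j v) = a j (a i v) := by
  -- on the image of `e3`
  have hfix : ∀ z, A (e3 z) = e3 z := fun z => by rw [h.hA, h.far13, add_zero]
  have hfixI : ∀ z, I (e3 z) = e3 z := fun z => by
    nth_rewrite 1 [← hfix z]
    rw [h.IA]
  have h3 : ∀ i j, i < j → ∀ z, a i (a j (e3 z)) = a j (a i (e3 z)) := by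
    intro i j hij z
    have k := h.cross i j hij (e3 z)
    rw [hfixI, h.a3, hfix, h.a3, h.a3 i z, hfixI, h.a3 j (a i z), hfix] at k
    rw [h.a3, h.a3, h.a3, h.a3]
    exact k
  have h4 : ∀ i j, ∀ z, a i (a j (e3 z)) = a j (a i (e3 z)) := by
    intro i j z
    rcases lt_trichotomy i j with hij | hij | hij
    · exact h3 i j hij z
    · rw [hij]
    · exact (h3 j i hij z).symm
  intro v hv
  refine bu1_ecan3 h (bu1_amem2 h i _ (bu1_amem2 h j v hv))
    (bu1_amem2 h j _ (bu1_amem2 h i v hv)) ?_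
  rw [← h.a3, ← h.a3, ← h.a3, ← h.a3]
  exact h4 i j v

theorem bu1_dd (h : Bu1H A e1 e2 e3 I a b d) (i j : J) :
    ∀ u ∈ LinearMap.range e1, d i (d j u) = d j (d i u) := by
  intro u hu
  obtain ⟨v, hv, rfl⟩ := bu1_sig h u hu
  rw [bu1_D h j v hv, bu1_D h i v hv, bu1_D h i _ (bu1_amem2 h j v hv),
    bu1_D h j _ (bu1_amem2 h i v hv), bu1_comm2 h i j v hv]

/-- the conjugate of `a j` on the image of `e2` -/
theorem bu1_conj (h : Bu1H A e1 e2 e3 I a b d) (j : J) {w y : V} (hw : w ∈ LinearMap.range e2)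
    (hy : e1 w = A y) : A (a j (I w)) = a j w - a j y + d j (A y) + b j y := by
  have h1 : I w = w - y := by
    have k := h.hA w
    rw [hy] at k
    have k2 := congrArg I k
    rw [h.IA, map_add, h.IA] at k2
    exact eq_sub_of_add_eq k2.symm
  rw [h1, map_sub, h.hA, map_sub, ← bu1_D h j w hw, hy, h.hb]
  abel

theorem bu1_lo (h : Bu1H A e1 e2 e3 I a b d) {i j : J} (hij : i < j) :
    ∀ y ∈ LinearMap.range e1, a i (a j y) = a i (d j (A y) + b j y) + a j (d i y) -
      (d j (A (d i y)) + b j (d i y)) := by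
  intro y hy
  obtain ⟨v, hv, hvy⟩ := bu1_sig h (A y) (bu1_Amem h y hy)
  have h1 := h.cross i j hij v
  have h2 : e1 (a i v) = A (d i y) := by
    rw [← bu1_D h i v hv, hvy, bu1_ds h i y hy]
  rw [bu1_conj h j hv hvy, bu1_conj h j (bu1_amem2 h i v hv) h2] at h1
  rw [bu1_comm2 h j i v hv] at h1
  simp only [map_add, map_sub] at h1 ⊢
  have h3 : a i (a j y) = a i (a j v) + a i (d j (A y)) + a i (b j y) -
    (a i (a j v) - a i (a j y) + a i (d j (A y)) + a i (b j y)) := by abel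
  rw [h3, h1]
  abel

theorem bu1_db_lo (h : Bu1H A e1 e2 e3 I a b d) {i j : J} (hij : i < j) :
    ∀ u ∈ LinearMap.range e1, d i (b j u) = b j (d i u) := by
  intro u hu
  have h1 := congrArg (fun x => e1 (e2 x)) (bu1_lo h hij u hu)
  simp only [map_add, map_sub] at h1
  rw [bu1_eea h, bu1_eea h, bu1_eea h, bu1_eea h, bu1_eea h, bu1_psi h u hu,
    bu1_psi h _ (bu1_bmem h j u), bu1_psi h _ (bu1_dmem h j _), bu1_psi h _ (bu1_dmem h i _),
    bu1_psi h _ (bu1_dmem h j _), bu1_psi h _ (bu1_bmem h j _)] at h1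
  simp only [map_neg] at h1
  have hA := bu1_Amem h u hu
  have hd := bu1_dmem h
  have hb := bu1_bmem h
  have hAd : ∀ j u, A (d j u) ∈ LinearMap.range e1 := fun j u => bu1_Amem h _ (hd j u)
  rw [bu1_ds h j u hu, bu1_ds h i _ (hd j u), bu1_ds h i _ (hAd j u), bu1_ds h i _ (hd j u),
    bu1_ds h i _ (hb j u), bu1_ds h j _ (hd i u),
    bu1_dd h j i u hu] at h1
  apply bu1_acan h
  linear_combination (norm := module) h1

theorem bu1_Aa (h : Bu1H A e1 e2 e3 I a b d) (j : J) (x : V) :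
    A (a j x) = a j x - b j x := by
  rw [h.hA, h.hb]
  abel

theorem bu1_Ia (h : Bu1H A e1 e2 e3 I a b d) (j : J) (x : V) :
    I (a j x) = a j x + I (b j x) := by
  have k := congrArg I (bu1_Aa h j x)
  rw [h.IA, map_sub] at k
  nth_rewrite 2 [k]
  abel

theorem bu1_hi (h : Bu1H A e1 e2 e3 I a b d) {i j : J} (hij : i < j) :
    ∀ y ∈ LinearMap.range e1, a j (a i y) = a i (d j y) + a j (I (d i y - b i y)) +
      I (b i (d j y) - d j (d i y)) := by
  intro y hy
  have hz := bu1_imem h y hy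
  have k1 : a i (A (a j (I y))) = a i (d j y) + a j (I (d i y)) - d j (d i y) -
      b j (I (d i y)) := by
    rw [bu1_Aa h, map_sub, bu1_lo h hij (I y) hz, h.AI, bu1_di h i y hy, h.AI, map_add]
    abel
  have k2 : A (a j (I (a i y))) = A (a j (a i y)) + (a j (I (b i y)) - b j (I (b i y))) := by
    rw [bu1_Ia h, map_add, map_add, bu1_Aa h j (I (b i y))]
  have k3 := congrArg I (k1.symm.trans ((h.cross i j hij y).trans k2))
  simp only [map_add, map_sub, h.IA] at k3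
  rw [bu1_Ia h i, bu1_Ia h j (I (d i y)), bu1_Ia h j (I (b i y))] at k3
  simp only [map_sub]
  linear_combination (norm := module) -k3

theorem bu1_db_hi (h : Bu1H A e1 e2 e3 I a b d) {i j : J} (hij : i < j) :
    ∀ u ∈ LinearMap.range e1, d j (b i u) = b i (d j u) := by
  intro u hu
  have h1 := congrArg (fun x => e1 (e2 x)) (bu1_hi h hij u hu)
  have hd := bu1_dmem h
  have hb := bu1_bmem h
  have hI := bu1_imem h
  simp only [map_add, map_sub] at h1
  rw [bu1_eea h, bu1_eea h, bu1_eea h, bu1_eea h, bu1_eea h, bu1_psi h u hu,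
    bu1_psi h _ (hd j _), bu1_psi h _ (hI _ (hd i u)), bu1_psi h _ (hI _ (hb i u)),
    bu1_psi h _ (hI _ (hb i _)), bu1_psi h _ (hI _ (hd j _))] at h1
  simp only [map_neg, h.AI] at h1
  rw [bu1_ds h i u hu, bu1_ds h i _ (hd j u), bu1_ds h j _ (hd i u), bu1_dd h j i u hu] at h1
  linear_combination (norm := module) -h1

theorem bu1_db (h : Bu1H A e1 e2 e3 I a b d) (i j : J) :
    ∀ u ∈ LinearMap.range e1, d i (b j u) = b j (d i u) := by
  intro u hu
  rcases lt_trichotomy i j with hij | hij | hij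
  · exact bu1_db_lo h hij u hu
  · rw [hij]
    exact bu1_dbs h j u hu
  · exact bu1_db_hi h hij u hu

end

theorem bu1_base {m : ℤ} (hm : 11 ≤ m) {s : ℤ → Module.End K V} {si : Module.End K V}
    {a : J → Module.End K V} (hP : PSys m s si a) (hF : FarZ m s)
    (hC : ∀ x, 1 ≤ x → x + 1 ≤ m → cE s x = 0) :
    Bu1H (s 1) (s 1 - 1) (s 2 - 1) (s 3 - 1) si a (pB s a) (pD s si a) where
  hA x := by
    show s 1 x = x + (s 1 x - x)
    abel
  AI x := LinearMap.congr_fun hP.inv1 x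
  IA x := LinearMap.congr_fun hP.inv2 x
  Binj x hx := by
    apply hP.inj 2 ⟨by omega, by omega⟩
    rw [map_zero, ← hx]
    show s 2 x = x + (s 2 x - x)
    abel
  ainj j x hx := hP.ainj j (by rw [hx, map_zero])
  c1 z := LinearMap.congr_fun (hC 1 (by omega) (by omega)) z
  c1' z := by
    have h := cE_eq (hP.chain.braid 1 ⟨by omega, by omega⟩ (1 + 1) ⟨by omega, by omega⟩
      (hum_chain (by omega)))
    rw [hC 1 (by omega) (by omega)] at h
    exact (LinearMap.congr_fun h z).symm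
  c2 z := LinearMap.congr_fun (hC 2 (by omega) (by omega)) z
  far13 z := LinearMap.congr_fun (hF 1 ⟨by omega, by omega⟩ 3 ⟨by omega, by omega⟩
    (far_chain (by omega) (by omega) (by omega))) z
  a2 j x := by
    have h := LinearMap.congr_fun (hP.far j 2 (by omega) (by omega)) x
    show a j (s 2 x - x) = s 2 (a j x) - a j x
    rw [map_sub]
    exact congrArg (fun y => y - a j x) h
  a3 j x := by
    have h := LinearMap.congr_fun (hP.far j 3 (by omega) (by omega)) x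
    show a j (s 3 x - x) = s 3 (a j x) - a j x
    rw [map_sub]
    exact congrArg (fun y => y - a j x) h
  own j x := LinearMap.congr_fun (hP.own j) x
  cross i j hij x := LinearMap.congr_fun (hP.cross i j hij) x
  hb j x := rfl
  hd j x := rfl

theorem bu_alg {m : ℤ} (hm : 11 ≤ m) {s : ℤ → Module.End K V} {si : Module.End K V}
    {a : J → Module.End K V} (hP : PSys m s si a) (hF : FarZ m s)
    (hC : ∀ x, 1 ≤ x → x + 1 ≤ m → cE s x = 0) : BFacts s si a := by
  have h := bu1_base hm hP hF hC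
  exact ⟨bu1_psi h, bu1_Amem h, bu1_imem h, bu1_dinj h, bu1_act2 h,
    fun j u hu => (h.a2 j u).symm.trans (bu1_act2 h j u hu), bu1_ds h, bu1_bs h, bu1_dd h,
    bu1_db h, bu1_own h, fun i j hij => bu1_lo h hij, fun i j hij => bu1_hi h hij⟩

end Pool.Agent.PCF
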