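import Pool.Agent.Lib.Art.Crossed

/-!
# Configurations on the line without finitely many points: operators

`s x`, `1 ≤ x ≤ m`: the standard generators (scaled), `a j`: the first point moves around the
puncture `j`, `si` is the inverse of `s 1`.
-/

namespace Pool.Agent.PCF

open Pool.Agent.Art

variable {K V J : Type*} [Field K] [AddCommGroup V] [Module K V] [LinearOrder J]

/-- the relations of the fundamental group, for invertible operators -/
structure PSys (m : ℤ) (s : ℤ → Module.End K V) (si : Module.End K V)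
    (a : J → Module.End K V) : Prop where
  chain : ASys hum (Set.Icc 1 m) s
  inj : ∀ x ∈ Set.Icc 1 m, Function.Injective (s x)
  inv1 : s 1 * si = 1
  inv2 : si * s 1 = 1
  ainj : ∀ j, Function.Injective (a j)
  far : ∀ j x, 2 ≤ x → x ≤ m → a j * s x = s x * a j
  own : ∀ j, a j * s 1 * a j * s 1 = s 1 * a j * s 1 * a j
  cross : ∀ i j, i < j → a i * (s 1 * a j * si) = s 1 * a j * si * a i

/-- the far pairs -/
def FarZ (m : ℤ) (s : ℤ → Module.End K V) : Prop :=
  ∀ x ∈ Set.Icc 1 m, ∀ y ∈ Set.Icc 1 m, Far hum x y → (s x - 1) * (s y - 1) = 0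

/-- irreducibility -/
def Irr (m : ℤ) (s : ℤ → Module.End K V) (a : J → Module.End K V) : Prop :=
  ∀ W : Submodule K V, (∀ x ∈ Set.Icc 1 m, ∀ w ∈ W, s x w ∈ W) → (∀ j, ∀ w ∈ W, a j w ∈ W) →
    W = ⊥ ∨ W = ⊤

/-- the image of `s 1 - 1` -/
def pU (s : ℤ → Module.End K V) : Submodule K V := LinearMap.range (s 1 - 1)

/-- `(s 1 - 1) a_j u = - B_j u` on `pU s` -/
def pB (s : ℤ → Module.End K V) (a : J → Module.End K V) (j : J) : Module.End K V :=
  -((s 1 - 1) * a j)

/-- `a_j (s 2 - 1) u = (s 2 - 1) D_j u` on `pU s` -/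
def pD (s : ℤ → Module.End K V) (si : Module.End K V) (a : J → Module.End K V) (j : J) :
    Module.End K V := -((s 1 - 1) * a j * (s 2 - 1) * si)

/-- the facts on `U = pU s` when the crossed elements vanish -/
structure BFacts (s : ℤ → Module.End K V) (si : Module.End K V) (a : J → Module.End K V) :
    Prop where
  /-- `e1 e2 = - s1` on `U` -/
  psi : ∀ u ∈ pU s, (s 1 - 1) ((s 2 - 1) u) = - s 1 u
  smem : ∀ u ∈ pU s, s 1 u ∈ pU s
  simem : ∀ u ∈ pU s, si u ∈ pU s
  dinj : ∀ j, ∀ u ∈ pU s, pD s si a j u = 0 → u = 0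
  act2 : ∀ j, ∀ u ∈ pU s, a j ((s 2 - 1) u) = (s 2 - 1) (pD s si a j u)
  act2' : ∀ j, ∀ u ∈ pU s, (s 2 - 1) (a j u) = (s 2 - 1) (pD s si a j u)
  ds : ∀ j, ∀ u ∈ pU s, pD s si a j (s 1 u) = s 1 (pD s si a j u)
  bs : ∀ j, ∀ u ∈ pU s, pB s a j (s 1 u) = s 1 (pB s a j u)
  dd : ∀ i j, ∀ u ∈ pU s, pD s si a i (pD s si a j u) = pD s si a j (pD s si a i u)
  db : ∀ i j, ∀ u ∈ pU s, pD s si a i (pB s a j u) = pB s a j (pD s si a i u)
  own : ∀ i, ∀ u ∈ pU s, a i (a i u) = a i (pB s a i u) + pD s si a i (pD s si a i u) -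
    pB s a i (pD s si a i u)
  lo : ∀ i j, i < j → ∀ u ∈ pU s, a i (a j u) = a i (pD s si a j (s 1 u) + pB s a j u) +
    a j (pD s si a i u) - (pD s si a j (s 1 (pD s si a i u)) + pB s a j (pD s si a i u))
  hi : ∀ i j, i < j → ∀ u ∈ pU s, a j (a i u) = a i (pD s si a j u) +
    a j (si (pD s si a i u - pB s a i u)) +
    si (pB s a i (pD s si a j u) - pD s si a j (pD s si a i u))

/-- the products of the `a j` -/
def pM (a : J → Module.End K V) : Submonoid (Module.End K V) := Submonoid.closure (Set.range a)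

/-- the crossed element of the first point -/
def pC (s : ℤ → Module.End K V) (si : Module.End K V) : Module.End K V := si * cE s 1 * s 1

/-- the point 1 moves around the puncture `k` -/
def pb (s : ℤ → Module.End K V) (si : Module.End K V) (a : J → Module.End K V) (k : J) :
    Module.End K V := s 1 * a k * si

/-- the space of the first point -/
def pF (s : ℤ → Module.End K V) (si : Module.End K V) (a : J → Module.End K V) :
    Submodule K V := ⨆ g : pM a, LinearMap.range ((g : Module.End K V) * pC s si)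

/-- the facts on `F = pF s si a` -/
structure TFacts (m : ℤ) (s : ℤ → Module.End K V) (si : Module.End K V)
    (a : J → Module.End K V) : Prop where
  fix : ∀ x, 2 ≤ x → x ≤ m → ∀ f ∈ pF s si a, s x f = f
  amem : ∀ j, ∀ f ∈ pF s si a, a j f ∈ pF s si a
  smem : ∀ f ∈ pF s si a, s 1 (s 1 f) ∈ pF s si a
  bmem : ∀ k, ∀ f ∈ pF s si a, pb s si a k f ∈ pF s si a
  sa : ∀ j, ∀ f ∈ pF s si a, s 1 (s 1 (a j f)) = a j (s 1 (s 1 f))
  ba : ∀ k j, ∀ f ∈ pF s si a, pb s si a k (a j f) = a j (pb s si a k f)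
  sb : ∀ k, ∀ f ∈ pF s si a, s 1 (s 1 (pb s si a k f)) = pb s si a k (s 1 (s 1 f))
  bb : ∀ k l, ∀ f ∈ pF s si a, pb s si a k (pb s si a l f) = pb s si a l (pb s si a k f)
  /-- `C_0 = s1 ^ 2 - 1` on `F`, and `C_1 = 0` on `F` -/
  c0 : ∀ f ∈ pF s si a, pC s si f = s 1 (s 1 f) - f
  c1 : ∀ f ∈ pF s si a, cE s 1 f = 0

end Pool.Agent.PCF
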