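import Pool.Agent.Lib.PCF.Defs

/-!
# Module TY1: the space of the first point

Write `A = s1 s1`, `b k = s1 (a k) si`. A subspace `G` is nice if `s x = 1` on `G`, `2 ≤ x ≤ m`, and
`A` and all `b k` map `G` into (hence onto) `G`. The image of `C0` is nice; on a nice subspace `A`,
the `b k` and the `a j` commute (apart from the `a j` with each other), so `a j G` is nice again.
-/

namespace Pool.Agent.PCF

open Pool.Agent.Art

variable {K V J : Type*} [Field K] [AddCommGroup V] [Module K V]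

/-- an injective operator maps a stable subspace onto itself -/
theorem ty1_onto [FiniteDimensional K V] {T : Module.End K V} (hT : Function.Injective T)
    {G : Submodule K V} (h : ∀ f ∈ G, T f ∈ G) {f : V} (hf : f ∈ G) : ∃ f' ∈ G, T f' = f := by
  have hi : Function.Injective (T.restrict h) := by
    intro x y hxy
    exact Subtype.ext (hT (congrArg Subtype.val hxy))
  obtain ⟨x, hx⟩ := (LinearMap.injective_iff_surjective.1 hi) ⟨f, hf⟩
  exact ⟨x, x.2, congrArg Subtype.val hx⟩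

/-- nice subspaces -/
structure Ty1Nice (m : ℤ) (s : ℤ → Module.End K V) (si : Module.End K V)
    (a : J → Module.End K V) (G : Submodule K V) : Prop where
  fix : ∀ x, 2 ≤ x → x ≤ m → ∀ f ∈ G, s x f = f
  smem : ∀ f ∈ G, s 1 (s 1 f) ∈ G
  bmem : ∀ k, ∀ f ∈ G, s 1 (a k (si f)) ∈ G

variable [LinearOrder J] {m : ℤ} {s : ℤ → Module.End K V} {si : Module.End K V}
  {a : J → Module.End K V}

/-! ### pointwise relations -/

theorem ty1_b12 (hm : 11 ≤ m) (hP : PSys m s si a) (w : V) :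
    s 1 (s 2 (s 1 w)) = s 2 (s 1 (s 2 w)) :=
  LinearMap.congr_fun (hP.chain.braid 1 ⟨by omega, by omega⟩ 2 ⟨by omega, by omega⟩
    (Or.inl ⟨by omega, by omega⟩)) w

theorem ty1_b23 (hm : 11 ≤ m) (hP : PSys m s si a) (w : V) :
    s 2 (s 3 (s 2 w)) = s 3 (s 2 (s 3 w)) :=
  LinearMap.congr_fun (hP.chain.braid 2 ⟨by omega, by omega⟩ 3 ⟨by omega, by omega⟩
    (Or.inl ⟨by omega, by omega⟩)) w

theorem ty1_c1 (hP : PSys m s si a) {x : ℤ} (h1 : 3 ≤ x) (h2 : x ≤ m) (w : V) :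
    s x (s 1 w) = s 1 (s x w) :=
  LinearMap.congr_fun (hP.chain.comm x ⟨by omega, by omega⟩ 1 ⟨by omega, by omega⟩
    (far_chain (by omega) (by omega) (by omega))) w

theorem ty1_i1 (hP : PSys m s si a) (w : V) : s 1 (si w) = w :=
  LinearMap.congr_fun hP.inv1 w

theorem ty1_i2 (hP : PSys m s si a) (w : V) : si (s 1 w) = w :=
  LinearMap.congr_fun hP.inv2 w

theorem ty1_ci (hP : PSys m s si a) {x : ℤ} (h1 : 3 ≤ x) (h2 : x ≤ m) (w : V) :
    s x (si w) = si (s x w) := by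
  have h := ty1_c1 hP h1 h2 (si w)
  rw [ty1_i1 hP] at h
  rw [h, ty1_i2 hP]

theorem ty1_fa (hP : PSys m s si a) (j : J) {x : ℤ} (h1 : 2 ≤ x) (h2 : x ≤ m) (w : V) :
    a j (s x w) = s x (a j w) :=
  LinearMap.congr_fun (hP.far j x h1 h2) w

theorem ty1_own (hP : PSys m s si a) (j : J) (w : V) :
    a j (s 1 (a j (s 1 w))) = s 1 (a j (s 1 (a j w))) :=
  LinearMap.congr_fun (hP.own j) w

theorem ty1_cross (hP : PSys m s si a) {i j : J} (h : i < j) (w : V) :
    a i (s 1 (a j (si w))) = s 1 (a j (si (a i w))) :=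
  LinearMap.congr_fun (hP.cross i j h) w

theorem ty1_inj (hm : 11 ≤ m) (hP : PSys m s si a) {x : ℤ} (h1 : 1 ≤ x) (h2 : x ≤ 3) {v w : V}
    (h : s x v = s x w) : v = w :=
  hP.inj x ⟨h1, by omega⟩ h

theorem ty1_sj [FiniteDimensional K V] (hm : 11 ≤ m) (hP : PSys m s si a) {x : ℤ} (h1 : 1 ≤ x)
    (h2 : x ≤ 3) (w : V) : ∃ v, s x v = w :=
  LinearMap.injective_iff_surjective.1 (hP.inj x ⟨h1, by omega⟩) w

/-- `A` is injective -/
theorem ty1_Ainj (hm : 11 ≤ m) (hP : PSys m s si a) : Function.Injective (s 1 * s 1) := by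
  intro v w h
  have h' : s 1 (s 1 v) = s 1 (s 1 w) := h
  exact ty1_inj hm hP le_rfl (by omega) (ty1_inj hm hP le_rfl (by omega) h')

/-- `b k` is injective -/
theorem ty1_binj (hm : 11 ≤ m) (hP : PSys m s si a) (k : J) :
    Function.Injective (s 1 * a k * si) := by
  intro v w h
  have h' : s 1 (a k (si v)) = s 1 (a k (si w)) := h
  have h1 := hP.ainj k (ty1_inj hm hP le_rfl (by omega) h')
  rw [← ty1_i1 hP v, ← ty1_i1 hP w, h1]

theorem Ty1Nice.ontoA [FiniteDimensional K V] (hm : 11 ≤ m) (hP : PSys m s si a)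
    {G : Submodule K V} (hG : Ty1Nice m s si a G) {f : V} (hf : f ∈ G) :
    ∃ f' ∈ G, s 1 (s 1 f') = f :=
  ty1_onto (ty1_Ainj hm hP) (G := G) (fun f hf => hG.smem f hf) hf

theorem Ty1Nice.ontob [FiniteDimensional K V] (hm : 11 ≤ m) (hP : PSys m s si a)
    {G : Submodule K V} (hG : Ty1Nice m s si a G) (k : J) {f : V} (hf : f ∈ G) :
    ∃ f' ∈ G, s 1 (a k (si f')) = f :=
  ty1_onto (ty1_binj hm hP k) (G := G) (fun f hf => hG.bmem k f hf) hf

/-! ### nice subspaces -/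

/-- `A b k = b k A` -/
theorem Ty1Nice.sb (hm : 11 ≤ m) (hP : PSys m s si a) {G : Submodule K V}
    (hG : Ty1Nice m s si a G) (k : J) {f : V} (hf : f ∈ G) :
    s 1 (s 1 (s 1 (a k (si f)))) = s 1 (a k (si (s 1 (s 1 f)))) := by
  set h := si f with hh
  have f1 : f = s 1 h := (ty1_i1 hP f).symm
  have e1 : s 2 (s 1 h) = s 1 h := by
    have := hG.fix 2 le_rfl (by omega) f hf
    rwa [f1] at this
  have e2 : s 2 (s 1 (a k h)) = s 1 (a k h) :=
    hG.fix 2 le_rfl (by omega) _ (hG.bmem k f hf)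
  have e3 : s 2 (s 1 (s 1 (s 1 h))) = s 1 (s 1 (s 1 h)) := by
    have := hG.fix 2 le_rfl (by omega) _ (hG.smem f hf)
    rwa [f1] at this
  -- `s1 s1 h = s2 s1 s2 h`
  have g1 : s 1 (s 1 h) = s 2 (s 1 (s 2 h)) := by
    rw [← ty1_b12 hm hP, e1]
  -- `s1 s2 h = s2 h`
  have g2 : s 1 (s 2 h) = s 2 h := by
    have h1 : s 2 (s 1 (s 2 (s 1 (s 2 h)))) = s 2 (s 1 (s 2 (s 2 h))) := by
      rw [← g1, e3, g1, ty1_b12 hm hP]
    exact ty1_inj hm hP (by omega) (by omega) (ty1_inj hm hP (by omega) (by omega)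
      (ty1_inj hm hP (by omega) (by omega) h1))
  have g3 : s 1 (s 1 h) = s 2 (s 2 h) := by rw [g1, g2]
  have e4 : s 2 (s 1 (a k (s 1 (s 1 h)))) = s 1 (a k (s 1 (s 1 h))) := by
    have := hG.fix 2 le_rfl (by omega) _ (hG.bmem k _ (hG.smem f hf))
    rwa [ty1_i2 hP, f1] at this
  calc s 1 (s 1 (s 1 (a k h))) = s 1 (s 1 (s 2 (s 1 (a k h)))) := by rw [e2]
    _ = s 1 (s 2 (s 1 (s 2 (a k h)))) := by rw [ty1_b12 hm hP]
    _ = s 2 (s 1 (s 2 (s 2 (a k h)))) := by rw [ty1_b12 hm hP]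
    _ = s 2 (s 1 (a k (s 2 (s 2 h)))) := by
      rw [ty1_fa hP k le_rfl (by omega), ty1_fa hP k le_rfl (by omega)]
    _ = s 2 (s 1 (a k (s 1 (s 1 h)))) := by rw [g3]
    _ = s 1 (a k (s 1 (s 1 h))) := e4
    _ = s 1 (a k (si (s 1 (s 1 f)))) := by rw [ty1_i2 hP, f1]

/-- `A a j = a j A` -/
theorem Ty1Nice.sa [FiniteDimensional K V] (hm : 11 ≤ m) (hP : PSys m s si a)
    {G : Submodule K V} (hG : Ty1Nice m s si a G) (j : J) {f : V} (hf : f ∈ G) :
    s 1 (s 1 (a j f)) = a j (s 1 (s 1 f)) := by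
  obtain ⟨f1, hf1, rfl⟩ := hG.ontob hm hP j hf
  obtain ⟨f2, hf2, rfl⟩ := hG.ontoA hm hP hf1
  have h1 := hG.sb hm hP j (hG.smem f2 hf2)
  have hD : ∀ w, s 1 (a j (s 1 (a j (s 1 w)))) = a j (s 1 (a j (s 1 (s 1 w)))) :=
    fun w => (ty1_own hP j (s 1 w)).symm
  rw [h1, ty1_i2 hP, ty1_i2 hP, hD, hD]

/-- `si a k s1 = b k` -/
theorem Ty1Nice.bar (hm : 11 ≤ m) (hP : PSys m s si a) {G : Submodule K V}
    (hG : Ty1Nice m s si a G) (k : J) {f : V} (hf : f ∈ G) :
    si (a k (s 1 f)) = s 1 (a k (si f)) := by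
  apply ty1_Ainj hm hP
  show s 1 (s 1 (si (a k (s 1 f)))) = s 1 (s 1 (s 1 (a k (si f))))
  rw [hG.sb hm hP k hf, ty1_i1 hP, ty1_i2 hP]

/-- `b k a j = a j b k` -/
theorem Ty1Nice.ba [FiniteDimensional K V] (hm : 11 ≤ m) (hP : PSys m s si a)
    {G : Submodule K V} (hG : Ty1Nice m s si a G) (k j : J) {f : V} (hf : f ∈ G) :
    s 1 (a k (si (a j f))) = a j (s 1 (a k (si f))) := by
  rcases lt_trichotomy j k with h | h | h
  · exact (ty1_cross hP h f).symm
  · subst h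
    obtain ⟨f1, hf1, rfl⟩ := hG.ontoA hm hP hf
    rw [← hG.sa hm hP j hf1, ty1_i2 hP, ty1_i2 hP, ty1_own hP]
  · obtain ⟨f1, hf1, rfl⟩ := hG.ontoA hm hP hf
    -- `si a k s1` commutes with `a j`
    have c : ∀ u, si (a k (s 1 (a j u))) = a j (si (a k (s 1 u))) := by
      intro u
      have h1 := ty1_cross hP h (s 1 u)
      rw [ty1_i2 hP] at h1
      rw [h1, ty1_i2 hP]
    rw [← hG.sa hm hP j hf1, ty1_i2 hP, ← hG.sb hm hP k hf1,
      ← hG.sa hm hP j (hG.bmem k f1 hf1), ← hG.bar hm hP k hf1, ← c, ty1_i1 hP]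

/-- `b k b l = b l b k` for `k < l` -/
theorem Ty1Nice.bb' [FiniteDimensional K V] (hm : 11 ≤ m) (hP : PSys m s si a)
    {G : Submodule K V} (hG : Ty1Nice m s si a G) {k l : J} (hkl : k < l) {f : V} (hf : f ∈ G) :
    s 1 (a k (si (s 1 (a l (si f))))) = s 1 (a l (si (s 1 (a k (si f))))) := by
  obtain ⟨h, hh⟩ := ty1_sj hm hP (x := 2) (by omega) (by omega) (si f)
  have f1 : f = s 1 (s 2 h) := by rw [hh, ty1_i1 hP]
  -- `s1 h = h`
  have e1 : s 1 h = h := by
    have h1 := hG.fix 2 le_rfl (by omega) f hf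
    rw [f1, ← ty1_b12 hm hP] at h1
    exact ty1_inj hm hP (by omega) (by omega) (ty1_inj hm hP (by omega) (by omega) h1)
  have e2 : ∀ k, s 1 (a k h) = a k h := by
    intro k
    have h1 := hG.fix 2 le_rfl (by omega) _ (hG.bmem k f hf)
    rw [← hh, ty1_fa hP k le_rfl (by omega), ← ty1_b12 hm hP] at h1
    exact ty1_inj hm hP (by omega) (by omega) (ty1_inj hm hP (by omega) (by omega) h1)
  have e3 : si (a k h) = a k h := by
    have h1 := ty1_i2 hP (a k h)
    rwa [e2 k] at h1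
  have hL : s 1 (a k (si (s 1 (a l (si f))))) = s 2 (s 1 (a l (s 2 (si (a k (s 1 h)))))) := by
    have h2 : s 2 (s 1 (a l (si f))) = s 1 (a l (si f)) :=
      hG.fix 2 le_rfl (by omega) _ (hG.bmem l f hf)
    rw [← h2, ← hh, ty1_fa hP l le_rfl (by omega), ← ty1_b12 hm hP, ty1_i2 hP,
      ty1_fa hP k le_rfl (by omega)]
    have h3 := ty1_cross hP hkl (s 1 h)
    rw [ty1_i2 hP] at h3
    rw [h3, ty1_b12 hm hP, ty1_fa hP l le_rfl (by omega)]
  have hR : s 1 (a l (si (s 1 (a k (si f))))) = s 2 (s 1 (a l (s 2 (a k h)))) := by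
    have h2 := hG.fix 2 le_rfl (by omega) _ (hG.bmem l _ (hG.bmem k f hf))
    rw [← h2, ty1_i2 hP, ← hh, ty1_fa hP k le_rfl (by omega)]
  rw [hL, hR, e1, e3]

theorem Ty1Nice.bb [FiniteDimensional K V] (hm : 11 ≤ m) (hP : PSys m s si a)
    {G : Submodule K V} (hG : Ty1Nice m s si a G) (k l : J) {f : V} (hf : f ∈ G) :
    s 1 (a k (si (s 1 (a l (si f))))) = s 1 (a l (si (s 1 (a k (si f))))) := by
  rcases lt_trichotomy k l with h | h | h
  · exact hG.bb' hm hP h hf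
  · subst h
    rfl
  · exact (hG.bb' hm hP h hf).symm

/-- `a j G` is nice -/
theorem Ty1Nice.map [FiniteDimensional K V] (hm : 11 ≤ m) (hP : PSys m s si a)
    {G : Submodule K V} (hG : Ty1Nice m s si a G) (j : J) : Ty1Nice m s si a (G.map (a j)) where
  fix := by
    rintro x h1 h2 _ ⟨f, hf, rfl⟩
    rw [← ty1_fa hP j h1 h2, hG.fix x h1 h2 f hf]
  smem := by
    rintro _ ⟨f, hf, rfl⟩
    exact ⟨_, hG.smem f hf, (hG.sa hm hP j hf).symm⟩
  bmem := by
    rintro k _ ⟨f, hf, rfl⟩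
    exact ⟨_, hG.bmem k f hf, (hG.ba hm hP k j hf).symm⟩

omit [LinearOrder J] in
/-- sums -/
theorem ty1_iSup {ι : Type*} {G : ι → Submodule K V} (hG : ∀ i, Ty1Nice m s si a (G i)) :
    Ty1Nice m s si a (⨆ i, G i) where
  fix := by
    intro x h1 h2 f hf
    have h : (⨆ i, G i) ≤ LinearMap.eqLocus (s x) (1 : Module.End K V) :=
      iSup_le fun i f hf => (hG i).fix x h1 h2 f hf
    exact h hf
  smem := by
    intro f hf
    have h : (⨆ i, G i) ≤ (⨆ i, G i).comap (s 1 * s 1) :=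
      iSup_le fun i f hf => Submodule.mem_iSup_of_mem i ((hG i).smem f hf)
    exact h hf
  bmem := by
    intro k f hf
    have h : (⨆ i, G i) ≤ (⨆ i, G i).comap (s 1 * a k * si) :=
      iSup_le fun i f hf => Submodule.mem_iSup_of_mem i ((hG i).bmem k f hf)
    exact h hf

/-! ### the image of `C0` -/

/-- the image of `C0` is nice -/
theorem ty1_start [FiniteDimensional K V] (hm : 11 ≤ m) (hP : PSys m s si a) (hF : FarZ m s) :
    Ty1Nice m s si a (LinearMap.range (pC s si)) := by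
  have hinj : ∀ x ∈ Set.Icc 1 m, Function.Injective (s x) := hP.inj
  have up0 := swap_up hinj hP.chain hF (i := 1) le_rfl (by omega)
  have down0 := swap_down hinj hP.chain hF (i := 1) le_rfl (by omega)
  have cd0 := conj_down hP.chain (i := 1) le_rfl (by omega)
  have e11 : (1 : ℤ) + 1 = 2 := by norm_num
  have e12 : (1 : ℤ) + 2 = 3 := by norm_num
  rw [e11, e12] at up0 down0 cd0
  have up : ∀ w, s 2 (cE s 1 w) = cE s 2 (s 1 (s 2 (s 3 w))) := fun w =>
    LinearMap.congr_fun up0 w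
  have down : ∀ w, s 2 (cE s 2 w) = cE s 1 (s 3 (s 2 (s 1 w))) := fun w =>
    LinearMap.congr_fun down0 w
  have cd : ∀ w, s 3 (s 2 (s 1 (cE s 2 w))) = cE s 1 (s 3 (s 2 (s 1 w))) := fun w =>
    LinearMap.congr_fun cd0 w
  have f1 : ∀ x, 3 ≤ x → x ≤ m → ∀ w, s x (cE s 1 w) = cE s 1 w := fun x h1 h2 w =>
    LinearMap.congr_fun (fix_cE hP.chain hF (i := 1) (k := x) le_rfl (by omega) (by omega) h2
      (by omega) (by omega)) w
  have f2 : ∀ w, s 1 (cE s 2 w) = cE s 2 w := fun w =>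
    LinearMap.congr_fun (fix_cE hP.chain hF (i := 2) (k := 1) (by omega) (by omega) le_rfl
      (by omega) (by omega) (by omega)) w
  -- `s1 s2 = s2` on the image of `C1`
  have g1 : ∀ w, s 1 (s 2 (cE s 1 w)) = s 2 (cE s 1 w) := by
    intro w
    rw [up, f2]
  -- elements
  have hC : ∀ w, pC s si w = si (cE s 1 (s 1 w)) := fun w => rfl
  have hmem : ∀ y, si (cE s 1 y) ∈ LinearMap.range (pC s si) := by
    intro y
    refine ⟨si y, ?_⟩
    rw [hC, ty1_i1 hP]
  -- `s x = 1`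
  have hfix2 : ∀ y, s 2 (si (cE s 1 y)) = si (cE s 1 y) := by
    intro y
    have h1 : s 2 (s 1 (s 2 (si (cE s 1 y)))) = s 2 (s 1 (si (cE s 1 y))) := by
      rw [← ty1_b12 hm hP, ty1_i1 hP, g1]
    exact ty1_inj hm hP (by omega) (by omega) (ty1_inj hm hP (by omega) (by omega) h1)
  have hfix : ∀ x, 2 ≤ x → x ≤ m → ∀ y, s x (si (cE s 1 y)) = si (cE s 1 y) := by
    intro x h1 h2 y
    by_cases h3 : x = 2
    · subst h3
      exact hfix2 y
    · rw [ty1_ci hP (by omega) h2, f1 x (by omega) h2]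
  refine ⟨?_, ?_, ?_⟩
  · rintro x h1 h2 _ ⟨w, rfl⟩
    rw [hC]
    exact hfix x h1 h2 _
  · -- `A = s2 s2` on the image of `C1`
    have hR : ∀ f ∈ LinearMap.range (cE s 1), (s 2 * s 2) f ∈ LinearMap.range (cE s 1) := by
      rintro _ ⟨w, rfl⟩
      show s 2 (s 2 (cE s 1 w)) ∈ _
      rw [up, down]
      exact ⟨_, rfl⟩
    have hTi : Function.Injective (s 2 * s 2) := by
      intro v w h
      have h' : s 2 (s 2 v) = s 2 (s 2 w) := h
      exact ty1_inj hm hP (by omega) (by omega) (ty1_inj hm hP (by omega) (by omega) h')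
    have g2 : ∀ p ∈ LinearMap.range (cE s 1), s 1 (s 1 p) = s 2 (s 2 p) := by
      intro p hp
      obtain ⟨q, hq, hqp⟩ := ty1_onto hTi hR hp
      have hqp' : s 2 (s 2 q) = p := hqp
      have hq1 : s 1 (s 2 q) = s 2 q := by
        obtain ⟨w, rfl⟩ := hq
        exact g1 w
      have hp1 : s 1 (s 2 p) = s 2 p := by
        obtain ⟨w, rfl⟩ := hp
        exact g1 w
      calc s 1 (s 1 p) = s 1 (s 1 (s 2 (s 2 q))) := by rw [hqp']
        _ = s 1 (s 1 (s 2 (s 1 (s 2 q)))) := by rw [hq1]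
        _ = s 1 (s 2 (s 1 (s 2 (s 2 q)))) := by rw [ty1_b12 hm hP (s 2 q)]
        _ = s 1 (s 2 (s 1 p)) := by rw [hqp']
        _ = s 2 (s 1 (s 2 p)) := ty1_b12 hm hP p
        _ = s 2 (s 2 p) := by rw [hp1]
    rintro _ ⟨w, rfl⟩
    rw [hC, ty1_i1 hP]
    obtain ⟨y, hy⟩ := hR (cE s 1 (s 1 w)) ⟨_, rfl⟩
    have h1 : s 1 (cE s 1 (s 1 w)) = si (cE s 1 y) := by
      rw [hy]
      show s 1 (cE s 1 (s 1 w)) = si (s 2 (s 2 (cE s 1 (s 1 w))))
      rw [← g2 _ ⟨_, rfl⟩, ty1_i2 hP]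
    rw [h1]
    exact hmem y
  · rintro k _ ⟨w, rfl⟩
    rw [hC]
    -- `s1 w = s3 s2 s1 z`
    obtain ⟨z1, hz1⟩ := ty1_sj hm hP (x := 3) (by omega) (by omega) (s 1 w)
    obtain ⟨z2, hz2⟩ := ty1_sj hm hP (x := 2) (by omega) (by omega) z1
    obtain ⟨z, hz⟩ := ty1_sj hm hP (x := 1) (by omega) (by omega) z2
    obtain ⟨t, ht⟩ := ty1_sj hm hP (x := 2) (by omega) (by omega) (cE s 2 z)
    have hPs : ∀ v, s 1 (s 3 (s 2 (s 1 v))) = s 3 (s 2 (s 1 (s 2 v))) := by
      intro v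
      rw [← ty1_c1 hP (x := 3) le_rfl (by omega), ty1_b12 hm hP]
    have hcomm : ∀ v, a k (cE s 2 v) = cE s 2 (a k v) := by
      intro v
      have e23 : (2 : ℤ) + 1 = 3 := by norm_num
      have hk2 : a k * s 2 = s 2 * a k := hP.far k 2 le_rfl (by omega)
      have hk3 : a k * s 3 = s 3 * a k := hP.far k 3 (by omega) (by omega)
      have j2 : Commute (a k) (s 2 - 1) := by
        show a k * (s 2 - 1) = (s 2 - 1) * a k
        rw [mul_sub, sub_mul, hk2, mul_one, one_mul]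
      have j3 : Commute (a k) (s 3 - 1) := by
        show a k * (s 3 - 1) = (s 3 - 1) * a k
        rw [mul_sub, sub_mul, hk3, mul_one, one_mul]
      have h : Commute (a k) (cE s 2) := by
        unfold cE
        rw [e23]
        exact (j2.add_right (j2.mul_right j2)).add_right ((j2.mul_right j3).mul_right j2)
      exact LinearMap.congr_fun h v
    -- `f = P t`, `P = s3 s2 s1`
    have hf : ∀ z t : V, s 2 t = cE s 2 z → si (cE s 1 (s 3 (s 2 (s 1 z)))) =
        s 3 (s 2 (s 1 t)) := by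
      intro z t ht
      rw [← cd, ← ht, ← hPs, ty1_i2 hP]
    have hf1 := hf z t ht
    rw [hz, hz2, hz1] at hf1
    have hf2 : si (cE s 1 (s 1 w)) = s 1 t := by
      have h1 := hfix 2 le_rfl (by omega) (s 1 w)
      have h2 := hfix 3 (by omega) (by omega) (s 1 w)
      have h3 : s 3 (s 2 (si (cE s 1 (s 1 w)))) = s 3 (s 2 (s 1 t)) := by
        rw [h1, h2, hf1]
      exact ty1_inj hm hP (by omega) (by omega) (ty1_inj hm hP (by omega) (by omega) h3)
    rw [hf2, ty1_i2 hP]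
    have ht2 : s 2 (a k t) = cE s 2 (a k z) := by
      rw [← ty1_fa hP k le_rfl (by omega), ht, hcomm]
    have hf3 := hf (a k z) (a k t) ht2
    set r := si (cE s 1 (s 3 (s 2 (s 1 (a k z))))) with hr
    have hr2 : s 3 (s 2 r) = r := by
      rw [hr, hfix 2 le_rfl (by omega), hfix 3 (by omega) (by omega)]
    have h4 : s 1 (a k t) = r := by
      have h5 : s 3 (s 2 (s 1 (a k t))) = s 3 (s 2 r) := by rw [hr2, hf3]
      exact ty1_inj hm hP (by omega) (by omega) (ty1_inj hm hP (by omega) (by omega) h5)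
    rw [h4]
    exact hmem _

/-- the space of the first point is nice -/
theorem ty1_nice [FiniteDimensional K V] (hm : 11 ≤ m) (hP : PSys m s si a) (hF : FarZ m s) :
    Ty1Nice m s si a (pF s si a) := by
  refine ty1_iSup fun g => ?_
  obtain ⟨g, hg⟩ := g
  show Ty1Nice m s si a (LinearMap.range (g * pC s si))
  have hr : ∀ g : Module.End K V, LinearMap.range (g * pC s si) =
      (LinearMap.range (pC s si)).map g := fun g => LinearMap.range_comp (pC s si) g
  rw [hr]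
  induction hg using Submonoid.closure_induction_left with
  | one =>
    have h : (LinearMap.range (pC s si)).map (1 : Module.End K V) = LinearMap.range (pC s si) :=
      Submodule.map_id _
    rw [h]
    exact ty1_start hm hP hF
  | mul_left x hx y _ ih =>
    obtain ⟨j, rfl⟩ := hx
    have h : (LinearMap.range (pC s si)).map (a j * y) =
        ((LinearMap.range (pC s si)).map y).map (a j) := Submodule.map_comp _ _ _
    rw [h]
    exact ih.map hm hP j

theorem ty_alg [FiniteDimensional K V] {m : ℤ} (hm : 11 ≤ m) {s : ℤ → Module.End K V}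
    {si : Module.End K V} {a : J → Module.End K V} (hP : PSys m s si a) (hF : FarZ m s) :
    TFacts m s si a := by
  have hN := ty1_nice hm hP hF
  refine ⟨hN.fix, ?_, hN.smem, hN.bmem, fun j f hf => hN.sa hm hP j hf,
    fun k j f hf => hN.ba hm hP k j hf, fun k f hf => hN.sb hm hP k hf,
    fun k l f hf => hN.bb hm hP k l hf, ?_, ?_⟩
  · intro j f hf
    have h : pF s si a ≤ (pF s si a).comap (a j) := by
      refine iSup_le ?_
      rintro ⟨g, hg⟩ _ ⟨w, rfl⟩
      refine Submodule.mem_iSup_of_mem ⟨a j * g, ?_⟩ ⟨w, rfl⟩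
      exact Submonoid.mul_mem _ (Submonoid.subset_closure ⟨j, rfl⟩) hg
    exact h hf
  · intro f hf
    have e1 := hN.fix 2 le_rfl (by omega) f hf
    have e2 := hN.fix 2 le_rfl (by omega) _ (hN.smem f hf)
    have e3 : s 1 (s 2 (s 1 f)) = s 2 (s 1 f) := by rw [ty1_b12 hm hP, e1]
    have e11 : (1 : ℤ) + 1 = 2 := by norm_num
    have ex : ∀ z, cE s 1 z = (s 1 z - z) + (s 1 (s 1 z - z) - (s 1 z - z)) +
        (s 1 (s 2 (s 1 z - z) - (s 1 z - z)) - (s 2 (s 1 z - z) - (s 1 z - z))) := by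
      intro z
      unfold cE
      rw [e11]
      rfl
    have h1 : cE s 1 (s 1 f) = s 1 (s 1 (s 1 f) - f) := by
      rw [ex]
      simp only [map_sub, e2, e3]
      abel
    show si (cE s 1 (s 1 f)) = _
    rw [h1, ty1_i2 hP]
  · intro f hf
    have e1 := hN.fix 2 le_rfl (by omega) f hf
    have e11 : (1 : ℤ) + 1 = 2 := by norm_num
    have h := hP.chain.braid 1 ⟨by omega, by omega⟩ 2 ⟨by omega, by omega⟩
      (Or.inl ⟨by omega, by omega⟩)
    have h2 := cE_eq (s := s) (i := 1) (by rw [e11]; exact h)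
    rw [e11] at h2
    rw [h2]
    show (s 2 f - f) + (s 2 - 1) (s 2 f - f) + (s 2 - 1) ((s 1 - 1) (s 2 f - f)) = 0
    rw [e1, sub_self, map_zero, map_zero, map_zero, add_zero, add_zero]

end Pool.Agent.PCF
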